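import Pool.Agent.Helper6.HG.Main

/-!
# Mumford-Tate and `T^(2,2)`: the second theorem (up to the modules)
-/

set_option autoImplicit false

open NumberField MU MT HD

namespace HG

section Mot

variable {F : Type} [Field F] [NumberField F] {S : Finset ℕ} {n w : ℕ} {h : Fin n → ℕ}

/-- a Hodge class which is a Tate class -/
theorem hodge_mem (M : PMot F S n w h) (C : Type) [Field C] {a b : ℕ} (t : Tensor n a b ℚ)
    (ht : M.IsHodge t) : t.base C ∈ hodgeSpan M C a b :=
  Submodule.subset_span ⟨t, ht, rfl⟩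

/-- some element of the monodromy Lie algebra has a multiplier different from `0` -/
theorem exists_mul (kt : ST_KT) (M : PMot F S n w h) (hw : 0 < w) (hn : 0 < n) (l : ℕ)
    [Fact l.Prime]
    (hsim : ∀ A ∈ glie M l, ∃ c : ℚ_[l], A.transpose * M.ψ.map (algebraMap ℚ ℚ_[l]) +
      M.ψ.map (algebraMap ℚ ℚ_[l]) * A = c • M.ψ.map (algebraMap ℚ ℚ_[l])) :
    ∃ A ∈ glie M l, ∃ c : ℚ_[l], c ≠ 0 ∧ A.transpose * M.ψ.map (algebraMap ℚ ℚ_[l]) +
      M.ψ.map (algebraMap ℚ ℚ_[l]) * A = c • M.ψ.map (algebraMap ℚ ℚ_[l]) := by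
  by_contra hcon
  push Not at hcon
  set ψ' := M.ψ.map (algebraMap ℚ ℚ_[l]) with hψ'
  have hzero : ∀ A ∈ glie M l, A.transpose * ψ' + ψ' * A = 0 := by
    intro A hA
    obtain ⟨c, hc⟩ := hsim A hA
    by_cases h0 : c = 0
    · rw [hc, h0, zero_smul]
    · exact absurd hc (hcon A hA c h0)
  -- the tensor `ψ` in `T^(0,2)`
  let t : Tensor n 0 2 ℚ_[l] := fun _ j => ψ' (j 0) (j 1)
  have hkill : ∀ A ∈ glie M l, Kill A t := by
    intro A hA
    unfold Kill
    have h0 : dtp 0 A = 0 := by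
      unfold dtp
      simp
    rw [h0, Matrix.zero_mul]
    symm
    ext i j
    rw [Matrix.mul_apply, Matrix.zero_apply, dtp_two]
    have h1 := congrFun (congrFun (hzero A hA) (j 0)) (j 1)
    rw [Matrix.add_apply, Matrix.mul_apply, Matrix.mul_apply, Matrix.zero_apply] at h1
    have h2 : ∀ f : (Fin 2 → Fin n) → ℚ_[l], ∑ k, f k = ∑ p, ∑ q, f ![p, q] := by
      intro f
      rw [← (finTwoArrowEquiv (Fin n)).symm.sum_comp, Fintype.sum_prod_type]
      rfl
    rw [h2]
    simp only [Matrix.of_apply, t, Matrix.cons_val_zero, Matrix.cons_val_one, Matrix.add_apply, tpf,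
      Fin.prod_univ_two, Matrix.one_apply, mul_add, Finset.sum_add_distrib]
    refine Eq.trans ?_ h1
    congr 1
    · refine Finset.sum_congr rfl fun p _ => ?_
      rw [Finset.sum_eq_single (j 1)]
      · rw [if_pos rfl, mul_one, Matrix.transpose_apply, mul_comm]
      · intro q _ hq
        rw [if_neg hq, mul_zero, mul_zero]
      · simp
    · rw [Finset.sum_eq_single (j 0)]
      · refine Finset.sum_congr rfl fun q _ => ?_
        rw [if_pos rfl, one_mul]
      · intro p _ hp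
        refine Finset.sum_eq_zero fun q _ => ?_
        rw [if_neg hp, zero_mul, mul_zero]
      · simp
  obtain ⟨H, hH, hfix⟩ := kt F S n w h M l 0 2 t hkill
  obtain ⟨H₁, hle, -, -, e, he, hHe⟩ := exists_core H hH
  obtain ⟨q, g, hg, hq, hcg⟩ := PMot.exists_mult (F := F) st_IDX st_FRE st_CYC l H₁ e he hHe
  have hfg := hfix g (hle hg)
  -- `ρ(g)^-T ψ ρ(g)^-1 = ψ`
  set X := mat (M.ρ l) g with hX
  set Y : Matrix (Fin n) (Fin n) ℚ_[l] :=
    (((M.ρ l g)⁻¹ : Matrix.GeneralLinearGroup (Fin n) ℚ_[l]) : Matrix (Fin n) (Fin n) ℚ_[l])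
    with hY
  have hYX : Y * X = 1 := Units.inv_mul (M.ρ l g)
  have h1 : Y.transpose * ψ' * Y = ψ' := by
    ext p q
    have h2 := congrFun (congrFun hfg ![]) ![p, q]
    unfold act at h2
    have h3 : ∀ f : (Fin 2 → Fin n) → ℚ_[l], ∑ k, f k = ∑ p, ∑ q, f ![p, q] := by
      intro f
      rw [← (finTwoArrowEquiv (Fin n)).symm.sum_comp, Fintype.sum_prod_type]
      rfl
    rw [Fintype.sum_unique, h3] at h2
    simp only [Finset.univ_eq_empty, Finset.prod_empty, one_mul, Fin.prod_univ_two,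
      Matrix.cons_val_zero, Matrix.cons_val_one, t] at h2
    rw [Matrix.mul_apply, ← h2, Finset.sum_comm]
    refine Finset.sum_congr rfl fun s _ => ?_
    rw [Matrix.mul_apply, Finset.sum_mul]
    refine Finset.sum_congr rfl fun r _ => ?_
    rw [Matrix.transpose_apply]
    ring
  have h2 : X.transpose * ψ' * X = ψ' := by
    calc X.transpose * ψ' * X = X.transpose * (Y.transpose * ψ' * Y) * X := by rw [h1]
      _ = (Y * X).transpose * ψ' * (Y * X) := by
          rw [Matrix.transpose_mul]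
          simp only [Matrix.mul_assoc]
      _ = ψ' := by rw [hYX, Matrix.transpose_one, Matrix.one_mul, Matrix.mul_one]
  have hgal := M.ψ_gal l g
  rw [bas_eq_map, hcg] at hgal
  have hgal' : (q : ℚ_[l]) ^ w • (X.transpose * ψ' * X) = ψ' := hgal
  rw [h2] at hgal'
  have hne : ψ' ≠ 0 := by
    intro h0
    have h3 : ψ'.det = algebraMap ℚ ℚ_[l] M.ψ.det := (RingHom.map_det _ M.ψ).symm
    have : Nonempty (Fin n) := ⟨⟨0, hn⟩⟩
    rw [h0, Matrix.det_zero] at h3
    exact M.ψ_det ((map_eq_zero _).mp h3.symm)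
  have h3 : (q : ℚ_[l]) ^ w = 1 := by
    have h4 : ((q : ℚ_[l]) ^ w - 1) • ψ' = 0 := by rw [sub_smul, hgal', one_smul, sub_self]
    rcases smul_eq_zero.mp h4 with h5 | h5
    · exact sub_eq_zero.mp h5
    · exact absurd h5 hne
  have h4 : q ^ w = 1 := by exact_mod_cast h3
  have h5 : 1 < q ^ w := Nat.one_lt_pow hw.ne' (by omega)
  omega

/-- G2 -/
theorem st_G2 (tk : ST_TK) (kt : ST_KT) (bc : ST_BC) (hk : ST_HK) (alg : ST_ALG) : ST_G2 := by
  intro F _ _ S n w h M hw hcm l _ h22 hss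
  set U := mlie M with hU
  -- the monodromy Lie algebra is in the Lie algebra of the Mumford-Tate group
  have hle : glie M l ≤ spn ℚ_[l] (mlie M) := glie_le tk alg M hw hcm l fun t ht =>
    (h22 (t.base ℚ_[l])).mpr (hodge_mem M ℚ_[l] t ht)
  have hsim : ∀ A ∈ spn ℚ_[l] (mlie M), ∃ c : ℚ_[l],
      A.transpose * M.ψ.map (algebraMap ℚ ℚ_[l]) + M.ψ.map (algebraMap ℚ ℚ_[l]) * A =
        c • M.ψ.map (algebraMap ℚ ℚ_[l]) :=
    spn_sim (C := ℚ_[l]) (mlie M) M.ψ (mlie_sim M)
  -- Tate classes in `T^(2,2)` are killed by the Lie algebra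
  have htk : ∀ t : Tensor n 2 2 ℚ_[l], IsTateL M l t → ∀ X ∈ spn ℚ_[l] (mlie M), Kill X t :=
    fun t ht X hX => spn_kill_span M ℚ_[l] X hX 2 2 t ((h22 t).mp ht)
  -- Tate endomorphisms in the Lie algebra are scalar
  have hsc : ∀ r ∈ spn ℚ_[l] (mlie M), IsTateL M l (two r) → ∀ c : ℚ_[l],
      r.transpose * M.ψ.map (algebraMap ℚ ℚ_[l]) + M.ψ.map (algebraMap ℚ ℚ_[l]) * r =
        c • M.ψ.map (algebraMap ℚ ℚ_[l]) →
      r = (2⁻¹ * c) • (1 : Matrix (Fin n) (Fin n) ℚ_[l]) := by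
    intro r hr hT c hc
    refine scalar_of_central M hw hcm ℚ_[l] r ?_ c hc
    rintro A (hA | hA)
    · exact ((kill_two _ r).mp (htk _ hT _ (mem_spn (C := ℚ_[l]) (mlie M) hA))).symm
    · exact mlie_commute M ℚ_[l] A hA r hr
  have hstab : ∀ g : Gal F, ∀ A ∈ glie M l, cj M l g A ∈ glie M l :=
    fun g A hA => glie_conj M l g A hA
  -- the scalars
  have hone : (1 : Matrix (Fin n) (Fin n) ℚ_[l]) ∈ glie M l := by
    rcases Nat.eq_zero_or_pos n with hn | hn
    · subst hn
      have : (1 : Matrix (Fin 0) (Fin 0) ℚ_[l]) = 0 := Subsingleton.elim _ _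
      rw [this]
      exact (glie M l).zero_mem
    obtain ⟨A, hA, c, hc0, hc⟩ := exists_mul kt M hw hn l fun A hA => hsim A (hle hA)
    -- the isometries
    let W₀ : Submodule ℚ_[l] (Matrix (Fin n) (Fin n) ℚ_[l]) :=
      { carrier := {B | B ∈ glie M l ∧ B.transpose * M.ψ.map (algebraMap ℚ ℚ_[l]) +
          M.ψ.map (algebraMap ℚ ℚ_[l]) * B = (0 : ℚ_[l]) • M.ψ.map (algebraMap ℚ ℚ_[l])}
        add_mem' := by
          rintro B C ⟨hB1, hB2⟩ ⟨hC1, hC2⟩
          refine ⟨(glie M l).add_mem hB1 hC1, ?_⟩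
          rw [zero_smul] at hB2 hC2 ⊢
          rw [Matrix.transpose_add, Matrix.add_mul, Matrix.mul_add, add_add_add_comm, hB2, hC2,
            add_zero]
        zero_mem' := by
          refine ⟨(glie M l).zero_mem, ?_⟩
          rw [Matrix.transpose_zero, Matrix.zero_mul, Matrix.mul_zero, zero_smul, add_zero]
        smul_mem' := by
          rintro d B ⟨hB1, hB2⟩
          refine ⟨(glie M l).smul_mem d hB1, ?_⟩
          rw [zero_smul] at hB2 ⊢
          rw [Matrix.transpose_smul, Matrix.smul_mul, Matrix.mul_smul, ← smul_add, hB2,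
            smul_zero] }
    have hW₀ : ∀ g : Gal F, ∀ B ∈ W₀, cj M l g B ∈ W₀ := by
      rintro g B ⟨hB1, hB2⟩
      exact ⟨hstab g B hB1, cj_sim M l g B 0 hB2⟩
    obtain ⟨W', hW', hcompl⟩ := hss W₀ hW₀
    obtain ⟨P, hP1, hP2, -, -, hP5⟩ := exists_proj (cj M l) W₀ W' hW₀ hW' hcompl
    set A' := A - P A with hA'
    have hPA : P A ∈ W₀ := hP1 A
    have hA'g : A' ∈ glie M l := (glie M l).sub_mem hA hPA.1
    have hA'c : A'.transpose * M.ψ.map (algebraMap ℚ ℚ_[l]) +
        M.ψ.map (algebraMap ℚ ℚ_[l]) * A' = c • M.ψ.map (algebraMap ℚ ℚ_[l]) := by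
      have h1 := hPA.2
      rw [zero_smul] at h1
      rw [hA', Matrix.transpose_sub, Matrix.sub_mul, Matrix.mul_sub, sub_add_sub_comm, hc, h1,
        sub_zero]
    have hinv : ∀ g : Gal F, mat (M.ρ l) g * A' * mat (M.ρ l) g⁻¹ = A' := by
      intro g
      have h1 : cj M l g A - A ∈ W₀ := by
        refine ⟨(glie M l).sub_mem (hstab g A hA) hA, ?_⟩
        rw [Matrix.transpose_sub, Matrix.sub_mul, Matrix.mul_sub, sub_add_sub_comm,
          cj_sim M l g A c hc, hc, sub_self, zero_smul]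
      have h2 := hP2 _ h1
      rw [map_sub, hP5] at h2
      have h3 : cj M l g A' = A' := by
        rw [hA', map_sub]
        have h4 : cj M l g (P A) = cj M l g A - A + P A := by
          rw [← h2]
          abel
        rw [h4]
        abel
      exact h3
    have h1 := hsc A' (hle hA'g) (two_tate M l A' hinv) c hA'c
    have h2 : (2⁻¹ * c : ℚ_[l]) ≠ 0 := mul_ne_zero (inv_ne_zero two_ne_zero) hc0
    have h3 : (1 : Matrix (Fin n) (Fin n) ℚ_[l]) = (2⁻¹ * c)⁻¹ • A' := by
      rw [h1, smul_smul, inv_mul_cancel₀ h2, one_smul]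
    rw [h3]
    exact (glie M l).smul_mem _ hA'g
  -- the projector
  obtain ⟨W', hW', hcompl⟩ := hss (glie M l) hstab
  obtain ⟨P, hP1, hP2, hP3, hP4, hP5⟩ := exists_proj (cj M l) (glie M l) W' hstab hW' hcompl
  have hPT : IsTateL M l (ten P) := ten_tate M l P hP5
  have hbr : ∀ X ∈ spn ℚ_[l] (mlie M), ∀ A, X * P A - P A * X = P (X * A - A * X) := by
    intro X hX A
    have h1 := (kill_op X (ten P)).mp (htk _ hPT X hX) A
    rw [op_ten, op_ten] at h1
    exact h1
  have heq : glie M l = spn ℚ_[l] (mlie M) := by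
    refine le_antisymm hle fun y hy => ?_
    set r := y - P y with hr
    have hrU : r ∈ spn ℚ_[l] (mlie M) := (spn ℚ_[l] (mlie M)).sub_mem hy (hle (hP1 y))
    have hPr : P r = 0 := hP4 r (hP3 y)
    have hcomm : ∀ A ∈ glie M l, A * r = r * A := by
      intro A hA
      have h1 := hbr A (hle hA) r
      rw [hPr, Matrix.mul_zero, Matrix.zero_mul, sub_zero] at h1
      have h2 := hbr r hrU A
      rw [hP2 A hA] at h2
      -- `[r, A] = P [r, A] = - P [A, r] = 0`
      have h3 : P (r * A - A * r) = 0 := by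
        have h4 : r * A - A * r = -(A * r - r * A) := by abel
        rw [h4, map_neg, ← h1, neg_zero]
      rw [h3] at h2
      exact (sub_eq_zero.mp h2).symm
    have hrT : IsTateL M l (two r) := kt F S n w h M l 2 2 (two r) fun A hA =>
      (kill_two A r).mpr (hcomm A hA)
    obtain ⟨c, hc⟩ := hsim r hrU
    have h1 := hsc r hrU hrT c hc
    have h2 : y = P y + (2⁻¹ * c) • (1 : Matrix (Fin n) (Fin n) ℚ_[l]) := by
      rw [← h1, hr]
      abel
    rw [h2]
    exact (glie M l).add_mem (hP1 y) ((glie M l).smul_mem _ hone)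
  refine ⟨heq, fun a b t => ⟨fun ht => ?_, fun ht => ?_⟩⟩
  · have h1 := bc n a b (mlie M) ℚ_[l] t fun A hA =>
      tk F S n w h M l a b t ht _ (by
        rw [heq]
        exact mem_spn (C := ℚ_[l]) (mlie M) hA)
    refine Submodule.span_mono ?_ h1
    rintro s ⟨t₀, ht₀, rfl⟩
    exact ⟨t₀, hk F S n w h M hw a b t₀ ht₀, rfl⟩
  · exact kt F S n w h M l a b t fun A hA => by
      rw [heq] at hA
      exact spn_kill_span M ℚ_[l] A hA a b t ht

end Mot

end HG
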