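import Pool.Agent.Helper6.HG.Defs3
import Pool.Agent.Helper6.HG.Main2

/-!
# The trace form of the monodromy Lie algebra of a semisimple representation
-/

set_option autoImplicit false

open NumberField MU MT HD

namespace HG

section Lin

variable {K : Type} [Field K] {n : ℕ}

/-- the trace form -/
noncomputable def trF (K : Type) [Field K] (n : ℕ) :
    LinearMap.BilinForm K (Matrix (Fin n) (Fin n) K) :=
  LinearMap.mk₂ K (fun A B => (A * B).trace)
    (fun A B C => by rw [Matrix.add_mul, Matrix.trace_add])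
    (fun c A B => by rw [Matrix.smul_mul, Matrix.trace_smul, smul_eq_mul])
    (fun A B C => by rw [Matrix.mul_add, Matrix.trace_add])
    (fun c A B => by rw [Matrix.mul_smul, Matrix.trace_smul, smul_eq_mul])

theorem trF_apply (A B : Matrix (Fin n) (Fin n) K) : trF K n A B = (A * B).trace := rfl

theorem trF_refl : (trF K n).IsRefl := by
  intro A B h
  rw [trF_apply, Matrix.trace_mul_comm]
  exact h

theorem trace_eq_zero_of_all (A : Matrix (Fin n) (Fin n) K)
    (h : ∀ B : Matrix (Fin n) (Fin n) K, (A * B).trace = 0) : A = 0 := by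
  ext i j
  have h1 := h (Matrix.single j i 1)
  rw [Matrix.trace_mul_single] at h1
  simpa using h1

/-- the orthogonal complement for the trace form -/
theorem isCompl_orth (U : Submodule K (Matrix (Fin n) (Fin n) K))
    (hU : ∀ A ∈ U, (∀ B ∈ U, (A * B).trace = 0) → A = 0) :
    IsCompl U ((trF K n).orthogonal U) := by
  rw [LinearMap.BilinForm.isCompl_orthogonal_iff_disjoint trF_refl, Submodule.disjoint_def]
  intro A hA hA'
  apply hU A hA
  intro B hB
  rw [LinearMap.BilinForm.mem_orthogonal_iff] at hA'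
  rw [Matrix.trace_mul_comm]
  exact hA' B hB

theorem mem_orth (U : Submodule K (Matrix (Fin n) (Fin n) K)) (A : Matrix (Fin n) (Fin n) K) :
    A ∈ (trF K n).orthogonal U ↔ ∀ B ∈ U, (B * A).trace = 0 := by
  rw [LinearMap.BilinForm.mem_orthogonal_iff]
  rfl

end Lin

/-- STB -/
theorem st_STB : ST_STB := by
  intro K₀ _ n X W hW A hA v hv
  by_contra hcon
  obtain ⟨ξ, hξ, hξW⟩ := Submodule.exists_dual_map_eq_bot_of_notMem hcon inferInstance
  -- the polynomial `X ↦ ξ (X v)`
  let e : Fin n → K₀ := fun i => ξ (Pi.single i 1)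
  have he : ∀ u : Fin n → K₀, ξ u = ∑ i, u i * e i := by
    intro u
    conv_lhs => rw [← Finset.univ_sum_single u]
    rw [map_sum]
    refine Finset.sum_congr rfl fun i _ => ?_
    have h1 : (Pi.single i (u i) : Fin n → K₀) = u i • Pi.single i 1 := by
      rw [← Pi.single_smul, smul_eq_mul, mul_one]
    rw [h1, map_smul, smul_eq_mul]
  let f : MvPolynomial (Fin n × Fin n) K₀ :=
    ∑ i, ∑ j, MvPolynomial.C (v j * e i) * MvPolynomial.X (i, j)
  have hf : ∀ Y : Matrix (Fin n) (Fin n) K₀, ev Y f = ξ (Y.mulVec v) := by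
    intro Y
    rw [he, map_sum]
    refine Finset.sum_congr rfl fun i _ => ?_
    rw [map_sum, Matrix.mulVec, dotProduct, Finset.sum_mul]
    refine Finset.sum_congr rfl fun j _ => ?_
    rw [map_mul, ev_C, ev_X, Algebra.algebraMap_self_apply]
    ring
  have hker : ∀ u ∈ W, ξ u = 0 := by
    intro u hu
    have h1 : ξ u ∈ W.map ξ := Submodule.mem_map_of_mem hu
    rw [hξW] at h1
    exact h1
  have h1 := hA f fun x hx => by
    rw [hf]
    exact hker _ (hW x hx v hv)
  apply hξ
  rw [he, ← h1]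
  refine Finset.sum_congr rfl fun i _ => ?_
  rw [Matrix.mulVec, dotProduct, Finset.sum_mul]
  refine Finset.sum_congr rfl fun j _ => ?_
  have h3 : ∀ (c : K₀) (p q : Fin n), ev (1 : Matrix (Fin n) (Fin n) K₀)
      (MvPolynomial.pderiv (i, j) (MvPolynomial.C c * MvPolynomial.X (p, q))) =
        if p = i then (if q = j then c else 0) else 0 := by
    intro c p q
    rw [MvPolynomial.pderiv_C_mul, MvPolynomial.pderiv_X, map_mul, ev_C,
      Algebra.algebraMap_self_apply]
    by_cases hp : p = i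
    · by_cases hq : q = j
      · subst hp hq
        rw [if_pos rfl, if_pos rfl, Pi.single_eq_same, map_one, mul_one]
      · rw [if_pos hp, if_neg hq, Pi.single_eq_of_ne (by
          intro h; exact hq (congrArg Prod.snd h)), map_zero, mul_zero]
    · rw [if_neg hp, Pi.single_eq_of_ne (by
        intro h; exact hp (congrArg Prod.fst h)), map_zero, mul_zero]
  have h2 : ev (1 : Matrix (Fin n) (Fin n) K₀) (MvPolynomial.pderiv (i, j) f) = v j * e i := by
    simp only [f, map_sum, h3]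
    rw [Finset.sum_eq_single i, Finset.sum_eq_single j]
    · rw [if_pos rfl, if_pos rfl]
    · intro q _ hq
      rw [if_pos rfl, if_neg hq]
    · simp
    · intro p _ hp
      exact Finset.sum_eq_zero fun q _ => if_neg hp
    · simp
  rw [h2]
  ring

section Mot

variable {F : Type} [Field F] [NumberField F] {S : Finset ℕ} {n w : ℕ} {h : Fin n → ℕ}

/-- the monodromy Lie algebra is closed under the bracket -/
theorem glie_br (M : PMot F S n w h) (l : ℕ) [Fact l.Prime] (A B : Matrix (Fin n) (Fin n) ℚ_[l])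
    (hA : A ∈ glie M l) (hB : B ∈ glie M l) : A * B - B * A ∈ glie M l := by
  rw [mem_glie] at hA hB ⊢
  intro H hH
  exact (st_ZAR ℚ_[l] n (H.map (M.ρ l))).1 A (hA H hH) B (hB H hH)

/-- the elements in the radical of the trace form are nilpotent -/
theorem rad_nil (rpl : ST_RPL) (M : PMot F S n w h) (l : ℕ) [Fact l.Prime]
    (A : Matrix (Fin n) (Fin n) ℚ_[l]) (hA : A ∈ glie M l)
    (hrad : ∀ B ∈ glie M l, (A * B).trace = 0) : IsNilpotent A := by
  let C := AlgebraicClosure ℚ_[l]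
  obtain ⟨μ, hμ, hφ⟩ := rpl ℚ_[l] C n A
  apply hμ
  by_contra hcon
  push Not at hcon
  obtain ⟨k, hk⟩ := hcon
  have : CharZero C := charZero_of_injective_algebraMap (algebraMap ℚ_[l] C).injective
  obtain ⟨φ₀, hφ₀⟩ : ∃ φ₀ : C →ₗ[ℚ] ℚ, φ₀ (μ k) ≠ 0 := by
    by_contra h0
    push Not at h0
    exact hk ((Module.forall_dual_apply_eq_zero_iff ℚ (μ k)).mp h0)
  obtain ⟨B, hB1, hB2⟩ := hφ ((algebraMap ℚ C).toAddMonoidHom.comp φ₀.toAddMonoidHom)
  have hBmem : B ∈ spn C (glie M l) := by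
    refine mem_span_of_forms
      (I := {p : Subgroup (Gal F) × MvPolynomial (Fin n × Fin n) ℚ_[l] //
        IsOpen (p.1 : Set (Gal F)) ∧ ∀ x ∈ p.1.map (M.ρ l),
          ev (x : Matrix (Fin n) (Fin n) ℚ_[l]) p.2 = 0})
      (fun p i j => ev (1 : Matrix (Fin n) (Fin n) ℚ_[l]) (MvPolynomial.pderiv (i, j) p.1.2))
      (glie M l) ?_ C B ?_
    · intro A' hA'
      rw [mem_glie]
      intro H hH f hf
      exact hA' ⟨(H, f), hH, hf⟩
    · rintro ⟨⟨H, f⟩, hH, hf⟩
      exact hB1 (H.map (M.ρ l)) ((mem_glie M l A).mp hA H hH) f hf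
  have htr : ∀ Y ∈ spn C (glie M l), (A.map (algebraMap ℚ_[l] C) * Y).trace = 0 := by
    intro Y hY
    unfold spn at hY
    induction hY using Submodule.span_induction with
    | mem x hx =>
      obtain ⟨B, hB, rfl⟩ := hx
      have h2 : (A.map (algebraMap ℚ_[l] C) * B.map (algebraMap ℚ_[l] C)).trace =
          algebraMap ℚ_[l] C (A * B).trace := by
        rw [← Matrix.map_mul, Matrix.trace, Matrix.trace, map_sum]
        rfl
      rw [h2, hrad B hB, map_zero]
    | zero => rw [Matrix.mul_zero, Matrix.trace_zero]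
    | add x y _ _ hx hy => rw [Matrix.mul_add, Matrix.trace_add, hx, hy, add_zero]
    | smul c x _ hx => rw [Matrix.mul_smul, Matrix.trace_smul, hx, smul_zero]
  rw [htr B hBmem] at hB2
  have h3 := congrArg φ₀ hB2
  rw [map_zero, map_sum] at h3
  have h4 : ∀ i, φ₀ (μ i * ((algebraMap ℚ C).toAddMonoidHom.comp φ₀.toAddMonoidHom) (μ i)) =
      φ₀ (μ i) ^ 2 := by
    intro i
    have h5 : μ i * ((algebraMap ℚ C).toAddMonoidHom.comp φ₀.toAddMonoidHom) (μ i) =
        φ₀ (μ i) • μ i := by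
      rw [Algebra.smul_def, mul_comm]
      rfl
    rw [h5, map_smul, smul_eq_mul, sq]
  simp only [h4] at h3
  have h6 := (Finset.sum_eq_zero_iff_of_nonneg (fun i _ => sq_nonneg (φ₀ (μ i)))).mp h3.symm k
    (Finset.mem_univ k)
  exact hφ₀ (pow_eq_zero_iff two_ne_zero |>.mp h6)

/-- semisimplicity of the Galois representation -/
def Semi (M : PMot F S n w h) (l : ℕ) [Fact l.Prime] : Prop :=
  ∀ W : Submodule ℚ_[l] (Fin n → ℚ_[l]), (∀ g : Gal F, ∀ v ∈ W, (mat (M.ρ l) g).mulVec v ∈ W) →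
    ∃ W' : Submodule ℚ_[l] (Fin n → ℚ_[l]), (∀ g : Gal F, ∀ v ∈ W',
      (mat (M.ρ l) g).mulVec v ∈ W') ∧ IsCompl W W'

theorem mat_inv (M : PMot F S n w h) (l : ℕ) [Fact l.Prime] (g : Gal F) :
    mat (M.ρ l) g⁻¹ * mat (M.ρ l) g = 1 := by
  rw [← map_mul, inv_mul_cancel, map_one]

theorem mat_inv' (M : PMot F S n w h) (l : ℕ) [Fact l.Prime] (g : Gal F) :
    mat (M.ρ l) g * mat (M.ρ l) g⁻¹ = 1 := by
  rw [← map_mul, mul_inv_cancel, map_one]

/-- if the Galois representation is semisimple, the trace form is non-degenerate on the monodromy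
Lie algebra -/
theorem glie_nondeg (rpl : ST_RPL) (eng : ST_ENG) (M : PMot F S n w h) (l : ℕ) [Fact l.Prime]
    (hss : Semi M l) (A : Matrix (Fin n) (Fin n) ℚ_[l]) (hA : A ∈ glie M l)
    (hrad : ∀ B ∈ glie M l, (A * B).trace = 0) : A = 0 := by
  let U : Submodule ℚ_[l] (Matrix (Fin n) (Fin n) ℚ_[l]) :=
    glie M l ⊓ (trF ℚ_[l] n).orthogonal (glie M l)
  have hU : ∀ X, X ∈ U ↔ X ∈ glie M l ∧ ∀ B ∈ glie M l, (B * X).trace = 0 := by
    intro X
    rw [Submodule.mem_inf, mem_orth]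
  have h0 : U = ⊥ := by
    refine eng ℚ_[l] n U (Gal F) (mat (M.ρ l)) ?_ ?_ ?_ ?_
    · intro X hX Y hY
      rw [hU] at hX hY ⊢
      refine ⟨glie_br M l X Y hX.1 hY.1, fun B hB => ?_⟩
      have h1 : (B * (X * Y - Y * X)).trace = ((B * X - X * B) * Y).trace := by
        rw [Matrix.mul_sub, Matrix.trace_sub, Matrix.sub_mul, Matrix.trace_sub, ← Matrix.mul_assoc]
        congr 1
        rw [← Matrix.mul_assoc, Matrix.trace_mul_comm, ← Matrix.mul_assoc]
      rw [h1]
      exact hY.2 _ (glie_br M l B X hB hX.1)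
    · intro X hX
      rw [hU] at hX
      refine rad_nil rpl M l X hX.1 fun B hB => ?_
      rw [Matrix.trace_mul_comm]
      exact hX.2 B hB
    · intro g X hX
      rw [hU] at hX ⊢
      refine ⟨glie_conj M l g X hX.1, fun B hB => ?_⟩
      have h1 : (B * (mat (M.ρ l) g * X * mat (M.ρ l) g⁻¹)).trace =
          ((mat (M.ρ l) g⁻¹ * B * mat (M.ρ l) g) * X).trace := by
        rw [← Matrix.mul_assoc, ← Matrix.mul_assoc, Matrix.trace_mul_comm, ← Matrix.mul_assoc,
          ← Matrix.mul_assoc]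
      have h2 := glie_conj M l g⁻¹ B hB
      rw [inv_inv] at h2
      rw [h1]
      exact hX.2 _ h2
    · intro W hW
      refine ⟨fun X hX v hv => ?_, hss W hW⟩
      rw [hU] at hX
      have h1 := (mem_glie M l X).mp hX.1 ⊤ isOpen_univ
      refine st_STB ℚ_[l] n (Subgroup.map (M.ρ l) ⊤) W ?_ X h1 v hv
      rintro _ ⟨g, _, rfl⟩ u hu
      exact hW g u hu
  have h1 : A ∈ U := by
    rw [hU]
    refine ⟨hA, fun B hB => ?_⟩
    rw [Matrix.trace_mul_comm]
    exact hrad B hB
  rw [h0] at h1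
  exact h1

/-- the stable complement of the monodromy Lie algebra and its projector -/
theorem exists_proj_glie (M : PMot F S n w h) (l : ℕ) [Fact l.Prime]
    (hnd : ∀ A ∈ glie M l, (∀ B ∈ glie M l, (A * B).trace = 0) → A = 0) :
    ∃ P : Matrix (Fin n) (Fin n) ℚ_[l] →ₗ[ℚ_[l]] Matrix (Fin n) (Fin n) ℚ_[l],
      (∀ A, P A ∈ glie M l) ∧ (∀ A ∈ glie M l, P A = A) ∧ P ∘ₗ P = P ∧
      (∀ A, ∀ B ∈ glie M l, (B * (A - P A)).trace = 0) ∧
        ∀ g A, P (cj M l g A) = cj M l g (P A) := by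
  have hstab : ∀ g : Gal F, ∀ A ∈ glie M l, cj M l g A ∈ glie M l :=
    fun g A hA => glie_conj M l g A hA
  obtain ⟨P, hP1, hP2, hP3, -, hP5⟩ := exists_proj (cj M l) (glie M l)
    ((trF ℚ_[l] n).orthogonal (glie M l)) hstab (by
      intro g X hX
      rw [mem_orth] at hX ⊢
      intro B hB
      have h1 : (B * cj M l g X).trace =
          ((mat (M.ρ l) g⁻¹ * B * mat (M.ρ l) g) * X).trace := by
        rw [cj_apply, ← Matrix.mul_assoc, ← Matrix.mul_assoc, Matrix.trace_mul_comm,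
          ← Matrix.mul_assoc, ← Matrix.mul_assoc]
      have h2 := glie_conj M l g⁻¹ B hB
      rw [inv_inv] at h2
      rw [h1]
      exact hX _ h2) (isCompl_orth _ hnd)
  refine ⟨P, hP1, hP2, ?_, fun A B hB => ?_, hP5⟩
  · ext A : 1
    exact hP2 _ (hP1 A)
  · exact (mem_orth _ _).mp (hP3 A) B hB

end Mot

end HG
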