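import Pool.Agent.Helper6.HG.Nd

/-!
# Mumford-Tate and `T^(2,2)`: the theorem with the trace form (up to the modules)
-/

set_option autoImplicit false

open NumberField MU MT HD

namespace HG

/-- the span of the brackets -/
def der {K : Type} [Field K] {n : ℕ} (U : Submodule K (Matrix (Fin n) (Fin n) K)) :
    Submodule K (Matrix (Fin n) (Fin n) K) :=
  Submodule.span K {X | ∃ A ∈ U, ∃ B ∈ U, X = A * B - B * A}

section Mot

variable {F : Type} [Field F] [NumberField F] {S : Finset ℕ} {n w : ℕ} {h : Fin n → ℕ}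

/-- without any condition on the motive the derived algebras agree. -/
theorem der_eq' (tk : ST_TK) (kt : ST_KT) (cas2 : ST_CAS2) (M : PMot F S n w h) (hw : 0 < w) (l : ℕ)
    [Fact l.Prime]
    (h22 : ∀ t : Tensor n 2 2 ℚ_[l], IsTateL M l t ↔ t ∈ hodgeSpan M ℚ_[l] 2 2)
    (P : Matrix (Fin n) (Fin n) ℚ_[l] →ₗ[ℚ_[l]] Matrix (Fin n) (Fin n) ℚ_[l])
    (hP1 : ∀ A, P A ∈ glie M l) (hP2 : ∀ A ∈ glie M l, P A = A)
    (hP5 : ∀ g A, P (cj M l g A) = cj M l g (P A)) :
    der (glie M l) = der (spn ℚ_[l] (mlie M)) := by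
  have hht : ∀ t : Tensor n 2 2 ℚ, M.IsHodge t → IsTateL M l (t.base ℚ_[l]) := fun t ht =>
    (h22 (t.base ℚ_[l])).mpr (hodge_mem M ℚ_[l] t ht)
  have hg0 : ∀ x ∈ glie M l, ∃ y ∈ spn ℚ_[l] (mlie M), (∀ A, A ∈ mlie M ∨ HodgeEnd M A →
      (x - y) * A.map (algebraMap ℚ ℚ_[l]) = A.map (algebraMap ℚ ℚ_[l]) * (x - y)) := by
    intro x hx
    obtain ⟨y, hy, h1, -⟩ := st_ALG0 cas2 M hw ℚ_[l] x fun t ht =>
      tk F S n w h M l 2 2 (t.base ℚ_[l]) (hht t ht) x hx
    exact ⟨y, hy, h1⟩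
  -- the monodromy Lie algebra commutes with the Hodge endomorphisms
  have hge : ∀ x ∈ glie M l, ∀ e, HodgeEnd M e →
      x * e.map (algebraMap ℚ ℚ_[l]) = e.map (algebraMap ℚ ℚ_[l]) * x := by
    intro x hx e he
    have h1 := tk F S n w h M l 2 2 _ (hht _ (hodge_two M e he)) x hx
    rw [two_base, map_cast_eq, kill_two] at h1
    exact h1
  have htk : ∀ t : Tensor n 2 2 ℚ_[l], IsTateL M l t → ∀ X ∈ spn ℚ_[l] (mlie M), Kill X t :=
    fun t ht X hX => spn_kill_span M ℚ_[l] X hX 2 2 t ((h22 t).mp ht)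
  have hPT : IsTateL M l (ten P) := ten_tate M l P hP5
  have hbr : ∀ X ∈ spn ℚ_[l] (mlie M), ∀ A, X * P A - P A * X = P (X * A - A * X) := by
    intro X hX A
    have h1 := (kill_op X (ten P)).mp (htk _ hPT X hX) A
    rw [op_ten, op_ten] at h1
    exact h1
  have hbg : ∀ X ∈ glie M l, ∀ A, X * P A - P A * X = P (X * A - A * X) := by
    intro X hX A
    have h1 := (kill_op X (ten P)).mp (tk F S n w h M l 2 2 _ hPT X hX) A
    rw [op_ten, op_ten] at h1
    exact h1
  have hpp : ∀ A, P (P A) = P A := fun A => hP2 _ (hP1 A)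
  -- the elements of the Lie algebra, up to central elements
  have hh0 : ∀ y ∈ spn ℚ_[l] (mlie M), ∀ A, A ∈ mlie M ∨ HodgeEnd M A →
      (y - P y) * A.map (algebraMap ℚ ℚ_[l]) = A.map (algebraMap ℚ ℚ_[l]) * (y - P y) := by
    intro y hy
    have hPr : P (y - P y) = 0 := by rw [map_sub, hpp, sub_self]
    have hcomm : ∀ A ∈ glie M l, A * (y - P y) = (y - P y) * A := by
      intro A hA
      have h1 := hbg A hA (y - P y)
      rw [hPr, Matrix.mul_zero, Matrix.zero_mul, sub_zero] at h1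
      -- `[A, y] = - P [y, A]` is in `glie`
      have h2 : P (A * (y - P y) - (y - P y) * A) = A * (y - P y) - (y - P y) * A := by
        have e1 : A * (y - P y) - (y - P y) * A = (A * y - y * A) - (A * P y - P y * A) := by
          rw [Matrix.mul_sub, Matrix.sub_mul]
          abel
        have e2 := hbg A hA y
        have e3 := hbr y hy A
        rw [hP2 A hA] at e3
        have e4 : P (A * y - y * A) = A * y - y * A := by
          have e5 : A * y - y * A = -(y * A - A * y) := by abel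
          rw [e5, map_neg, ← e3]
        rw [e1, map_sub, e4, e2, hpp]
      rw [← sub_eq_zero, ← h2, ← h1]
    have hrT : IsTateL M l (two (y - P y)) := kt F S n w h M l 2 2 (two (y - P y)) fun A hA =>
      (kill_two A _).mpr (hcomm A hA)
    rintro A (hA | hA)
    · exact ((kill_two _ _).mp (htk _ hrT _ (mem_spn (C := ℚ_[l]) (mlie M) hA))).symm
    · rw [Matrix.sub_mul, Matrix.mul_sub, mlie_commute M ℚ_[l] A hA y hy, hge _ (hP1 y) A hA]
  have hcommr : ∀ y ∈ spn ℚ_[l] (mlie M), ∀ A ∈ glie M l, A * (y - P y) = (y - P y) * A := by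
    intro y hy A hA
    obtain ⟨x, hx, h1⟩ := hg0 A hA
    have h2 := central_comm M hw ℚ_[l] _ _ h1 (hh0 y hy)
    have h3 := central_spn M ℚ_[l] _ x (hh0 y hy) hx
    have h4 : A = (A - x) + x := by abel
    rw [h4, Matrix.add_mul, Matrix.mul_add, h2, h3]
  apply le_antisymm
  · refine Submodule.span_le.mpr ?_
    rintro _ ⟨A, hA, B, hB, rfl⟩
    obtain ⟨x, hx, h1⟩ := hg0 A hA
    obtain ⟨y, hy, h2⟩ := hg0 B hB
    have h3 := central_comm M hw ℚ_[l] _ _ h1 h2
    have h4 := central_spn M ℚ_[l] _ y h1 hy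
    have h5 := central_spn M ℚ_[l] _ x h2 hx
    refine Submodule.subset_span ⟨x, hx, y, hy, ?_⟩
    have h6 : A * B - B * A - (x * y - y * x) = ((A - x) * (B - y) - (B - y) * (A - x)) +
        ((A - x) * y - y * (A - x)) - ((B - y) * x - x * (B - y)) := by
      noncomm_ring
    rw [h3, h4, h5, sub_self, sub_self, sub_self, add_zero, sub_zero] at h6
    exact sub_eq_zero.mp h6
  · refine Submodule.span_le.mpr ?_
    rintro _ ⟨x, hx, y, hy, rfl⟩
    refine Submodule.subset_span ⟨P x, hP1 x, P y, hP1 y, ?_⟩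
    have h1 := hcommr x hx (P y) (hP1 y)
    have h2 := hcommr y hy (P x) (hP1 x)
    have h3 := central_comm M hw ℚ_[l] _ _ (hh0 x hx) (hh0 y hy)
    have h6 : x * y - y * x - (P x * P y - P y * P x) =
        ((x - P x) * (y - P y) - (y - P y) * (x - P x)) +
        (P x * (y - P y) - (y - P y) * P x) - (P y * (x - P x) - (x - P x) * P y) := by
      noncomm_ring
    rw [h3, h1, h2, sub_self, sub_self, sub_self, add_zero, sub_zero] at h6
    exact sub_eq_zero.mp h6

/-- without CM factor the Lie algebras agree -/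
theorem lie_eq (tk : ST_TK) (kt : ST_KT) (bc : ST_BC) (hk : ST_HK) (cas2 : ST_CAS2)
    (M : PMot F S n w h) (hw : 0 < w) (hcm : NoCM M) (l : ℕ) [Fact l.Prime]
    (h22 : ∀ t : Tensor n 2 2 ℚ_[l], IsTateL M l t ↔ t ∈ hodgeSpan M ℚ_[l] 2 2)
    (P : Matrix (Fin n) (Fin n) ℚ_[l] →ₗ[ℚ_[l]] Matrix (Fin n) (Fin n) ℚ_[l])
    (hP1 : ∀ A, P A ∈ glie M l) (hP2 : ∀ A ∈ glie M l, P A = A)
    (hP3 : ∀ A, ∀ B ∈ glie M l, (B * (A - P A)).trace = 0)
    (hP5 : ∀ g A, P (cj M l g A) = cj M l g (P A)) :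
    glie M l = spn ℚ_[l] (mlie M) ∧
    ∀ (a b : ℕ) (t : Tensor n a b ℚ_[l]), IsTateL M l t ↔ t ∈ hodgeSpan M ℚ_[l] a b := by
  -- the monodromy Lie algebra is in the Lie algebra of the Mumford-Tate group
  have hle : glie M l ≤ spn ℚ_[l] (mlie M) := glie_le tk (st_ALG cas2) M hw hcm l fun t ht =>
    (h22 (t.base ℚ_[l])).mpr (hodge_mem M ℚ_[l] t ht)
  have hsim : ∀ A ∈ spn ℚ_[l] (mlie M), ∃ c : ℚ_[l],
      A.transpose * M.ψ.map (algebraMap ℚ ℚ_[l]) + M.ψ.map (algebraMap ℚ ℚ_[l]) * A =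
        c • M.ψ.map (algebraMap ℚ ℚ_[l]) :=
    spn_sim (C := ℚ_[l]) (mlie M) M.ψ (mlie_sim M)
  -- Tate classes in `T^(2,2)` are killed by the Lie algebra
  have htk : ∀ t : Tensor n 2 2 ℚ_[l], IsTateL M l t → ∀ X ∈ spn ℚ_[l] (mlie M), Kill X t :=
    fun t ht X hX => spn_kill_span M ℚ_[l] X hX 2 2 t ((h22 t).mp ht)
  -- Tate endomorphisms in the Lie algebra are scalar
  have hsc : ∀ r ∈ spn ℚ_[l] (mlie M), IsTateL M l (two r) → ∀ c : ℚ_[l],
      r.transpose * M.ψ.map (algebraMap ℚ ℚ_[l]) + M.ψ.map (algebraMap ℚ ℚ_[l]) * r =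
        c • M.ψ.map (algebraMap ℚ ℚ_[l]) →
      r = (2⁻¹ * c) • (1 : Matrix (Fin n) (Fin n) ℚ_[l]) := by
    intro r hr hT c hc
    refine scalar_of_central M hw hcm ℚ_[l] r ?_ c hc
    rintro A (hA | hA)
    · exact ((kill_two _ r).mp (htk _ hT _ (mem_spn (C := ℚ_[l]) (mlie M) hA))).symm
    · exact mlie_commute M ℚ_[l] A hA r hr
  -- the scalars
  have hPT : IsTateL M l (ten P) := ten_tate M l P hP5
  have hbr : ∀ X ∈ spn ℚ_[l] (mlie M), ∀ A, X * P A - P A * X = P (X * A - A * X) := by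
    intro X hX A
    have h1 := (kill_op X (ten P)).mp (htk _ hPT X hX) A
    rw [op_ten, op_ten] at h1
    exact h1
  have hone : (1 : Matrix (Fin n) (Fin n) ℚ_[l]) ∈ glie M l := by
    rcases Nat.eq_zero_or_pos n with hn | hn
    · subst hn
      have : (1 : Matrix (Fin 0) (Fin 0) ℚ_[l]) = 0 := Subsingleton.elim _ _
      rw [this]
      exact (glie M l).zero_mem
    obtain ⟨A, hA, c, hc0, hc⟩ := exists_mul kt M hw hn l fun A hA => hsim A (hle hA)
    have hinv : ∀ g : Gal F, mat (M.ρ l) g * P 1 * mat (M.ρ l) g⁻¹ = P 1 := by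
      intro g
      have h1 := hP5 g 1
      rw [cj_apply, cj_apply, Matrix.mul_one, mat_inv'] at h1
      exact h1.symm
    obtain ⟨c', hc'⟩ := hsim (P 1) (hle (hP1 1))
    have h1 := hsc (P 1) (hle (hP1 1)) (two_tate M l (P 1) hinv) c' hc'
    have h2 : (2⁻¹ * c' : ℚ_[l]) ≠ 0 := by
      intro h0
      rw [h0, zero_smul] at h1
      have h3 := hP3 1 A hA
      rw [h1, sub_zero, Matrix.mul_one] at h3
      -- `2 tr A = n c`
      have hu : IsUnit (M.ψ.map (algebraMap ℚ ℚ_[l])).det := by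
        have h4 : (M.ψ.map (algebraMap ℚ ℚ_[l])).det = algebraMap ℚ ℚ_[l] M.ψ.det :=
          (RingHom.map_det (algebraMap ℚ ℚ_[l]) M.ψ).symm
        rw [h4]
        exact (isUnit_iff_ne_zero.mpr M.ψ_det).map _
      have h4 : ((M.ψ.map (algebraMap ℚ ℚ_[l]))⁻¹ * (A.transpose * M.ψ.map (algebraMap ℚ ℚ_[l]) +
          M.ψ.map (algebraMap ℚ ℚ_[l]) * A)).trace = c * n := by
        rw [hc, Matrix.mul_smul, Matrix.nonsing_inv_mul _ hu, Matrix.trace_smul, Matrix.trace_one,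
          Fintype.card_fin, smul_eq_mul]
      rw [Matrix.mul_add, Matrix.trace_add, Matrix.trace_mul_comm, Matrix.mul_assoc,
        Matrix.mul_nonsing_inv _ hu, Matrix.mul_one, Matrix.trace_transpose, h3, zero_add,
        ← Matrix.mul_assoc, Matrix.nonsing_inv_mul _ hu, Matrix.one_mul, h3] at h4
      rcases mul_eq_zero.mp h4.symm with h5 | h5
      · exact hc0 h5
      · exact hn.ne' (by exact_mod_cast h5)
    have h3 : (1 : Matrix (Fin n) (Fin n) ℚ_[l]) = (2⁻¹ * c')⁻¹ • P 1 := by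
      rw [h1, smul_smul, inv_mul_cancel₀ h2, one_smul]
    rw [h3]
    exact (glie M l).smul_mem _ (hP1 1)
  have heq : glie M l = spn ℚ_[l] (mlie M) := by
    refine le_antisymm hle fun y hy => ?_
    set r := y - P y with hr
    have hrU : r ∈ spn ℚ_[l] (mlie M) := (spn ℚ_[l] (mlie M)).sub_mem hy (hle (hP1 y))
    have hPr : P r = 0 := by rw [hr, map_sub, hP2 _ (hP1 y), sub_self]
    have hcomm : ∀ A ∈ glie M l, A * r = r * A := by
      intro A hA
      have h1 := hbr A (hle hA) r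
      rw [hPr, Matrix.mul_zero, Matrix.zero_mul, sub_zero] at h1
      have h2 := hbr r hrU A
      rw [hP2 A hA] at h2
      -- `[r, A] = P [r, A] = - P [A, r] = 0`
      have h3 : P (r * A - A * r) = 0 := by
        have h4 : r * A - A * r = -(A * r - r * A) := by abel
        rw [h4, map_neg, ← h1, neg_zero]
      rw [h3] at h2
      exact (sub_eq_zero.mp h2).symm
    have hrT : IsTateL M l (two r) := kt F S n w h M l 2 2 (two r) fun A hA =>
      (kill_two A r).mpr (hcomm A hA)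
    obtain ⟨c, hc⟩ := hsim r hrU
    have h1 := hsc r hrU hrT c hc
    have h2 : y = P y + (2⁻¹ * c) • (1 : Matrix (Fin n) (Fin n) ℚ_[l]) := by
      rw [← h1, hr]
      abel
    rw [h2]
    exact (glie M l).add_mem (hP1 y) ((glie M l).smul_mem _ hone)
  refine ⟨heq, fun a b t => ⟨fun ht => ?_, fun ht => ?_⟩⟩
  · have h1 := bc n a b (mlie M) ℚ_[l] t fun A hA =>
      tk F S n w h M l a b t ht _ (by
        rw [heq]
        exact mem_spn (C := ℚ_[l]) (mlie M) hA)
    refine Submodule.span_mono ?_ h1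
    rintro s ⟨t₀, ht₀, rfl⟩
    exact ⟨t₀, hk F S n w h M hw a b t₀ ht₀, rfl⟩
  · exact kt F S n w h M l a b t fun A hA => by
      rw [heq] at hA
      exact spn_kill_span M ℚ_[l] A hA a b t ht

end Mot

end HG
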