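import Pool.Agent.Helper6.HG.Fin
import Pool.Agent.Helper19.HG.TK
import Pool.Agent.Helper19.HG.HK
import Pool.Agent.Helper19.HG.POSJ
import Pool.Agent.Helper91.HG.KT
import Pool.Agent.Helper91.HG.DC
import Pool.Agent.Helper72.HG.CAS2
import Pool.Agent.Helper72.HG.BC
import Pool.Agent.Helper72.HG.ENG
import Pool.Agent.Helper66.HG.HOM
import Pool.Agent.Helper98.HG.REP
import Pool.Agent.Helper72.HG.RPL

/-!
# Mumford-Tate and `T^(2,2)`: the final theorem
-/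

set_option autoImplicit false

open NumberField MU MT HD

namespace HG

theorem grp : ST_GRP := st_GRP st_KT st_HK st_DC st_POSJ st_HOM st_REP

/-- the final theorem -/
theorem all (F : Type) [Field F] [NumberField F] (S : Finset ℕ) (n w : ℕ)
    (hw : 0 < w) (h : Fin n → ℕ) (M : PMot F S n w h) (l : ℕ) [Fact l.Prime] :
    ((∀ t : Tensor n 2 2 ℚ, M.IsHodge t → IsTate M l t) → NoCM M →
      (∀ (a b : ℕ) (t : Tensor n a b ℚ), M.IsHodge t → IsTate M l t) ∧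
      ∀ (K : Type) [Field K] [Algebra ℚ_[l] K], M.Gl0 l K ⊆ M.Gsigma K) ∧
    ((∀ t : Tensor n 2 2 ℚ_[l], IsTateL M l t ↔ t ∈ hodgeSpan M ℚ_[l] 2 2) → Semi M l →
      der (glie M l) = der (spn ℚ_[l] (mlie M)) ∧
      (NoCM M → (∀ (K : Type) [Field K] [Algebra ℚ_[l] K], M.Gl0 l K = M.Gsigma K) ∧
        ∀ (a b : ℕ) (t : Tensor n a b ℚ_[l]), IsTateL M l t ↔ t ∈ hodgeSpan M ℚ_[l] a b)) :=
  fin_of st_TK st_KT st_CAS2 st_BC st_HK st_RPL st_ENG grp F S n w hw h M l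

end HG
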