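import Pool.Agent.Helper6.HG.Defs
import Pool.Agent.Helper6.MT9.HLA

/-!
# Mumford-Tate and `T^(2,2)`: the algebraic part
-/

set_option autoImplicit false

open NumberField MU MT HD

namespace HG

section Fld

variable {K : Type} [Field K] {n : ℕ}

/-- the tensor `e ⊗ 1` -/
def two {R : Type} [CommRing R] {n : ℕ} (e : Matrix (Fin n) (Fin n) R) : Tensor n 2 2 R :=
  tpf ![e, 1]

theorem two_base (C : Type) [Field C] (e : Matrix (Fin n) (Fin n) ℚ) :
    (two e).base C = two (e.map (fun x : ℚ => (x : C))) := by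
  funext i j
  simp only [two, tpf, Tensor.base, Fin.prod_univ_two, Matrix.cons_val_zero, Matrix.cons_val_one,
    Matrix.map_apply]
  push_cast
  congr 1
  rw [Matrix.one_apply, Matrix.one_apply]
  split_ifs <;> simp

/-- a matrix kills `e ⊗ 1` iff it commutes with `e` -/
theorem kill_two {R : Type} [CommRing R] {n : ℕ} (x e : Matrix (Fin n) (Fin n) R) :
    Kill x (two e) ↔ x * e = e * x := by
  have h0 : (Matrix.of (two e) : Matrix (Fin 2 → Fin n) (Fin 2 → Fin n) R) = tpf ![e, 1] := rfl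
  have h1 : ∀ X Y Z W : Matrix (Fin n) (Fin n) R,
      tpf ![X, Y] * tpf ![Z, W] = tpf ![X * Z, Y * W] := by
    intro X Y Z W
    rw [tpf_mul]
    congr 1
    funext s
    fin_cases s <;> rfl
  unfold Kill
  rw [h0, dtp_two, Matrix.add_mul, Matrix.mul_add, h1, h1, h1, h1]
  simp only [Matrix.mul_one, Matrix.one_mul]
  constructor
  · intro h
    have h2 : tpf ![x * e, (1 : Matrix (Fin n) (Fin n) R)] = tpf ![e * x, 1] :=
      add_right_cancel h
    ext i j
    have h3 := congrFun (congrFun h2 ![i, i]) ![j, i]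
    simpa [tpf, Fin.prod_univ_two] using h3
  · intro h
    rw [h]

/-- `e ⊗ 1` is fixed by `g` iff `g` commutes with `e` -/
theorem act_two (g : Matrix.GeneralLinearGroup (Fin n) K) (e : Matrix (Fin n) (Fin n) K) :
    act g (two e) = two e ↔
      (g : Matrix (Fin n) (Fin n) K) * e = e * (g : Matrix (Fin n) (Fin n) K) := by
  have h0 : (Matrix.of (two e) : Matrix (Fin 2 → Fin n) (Fin 2 → Fin n) K) = tpf ![e, 1] := rfl
  have h1 : MT.tp 2 (g : Matrix (Fin n) (Fin n) K) =
      tpf ![(g : Matrix (Fin n) (Fin n) K), (g : Matrix (Fin n) (Fin n) K)] := by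
    rw [tp_eq]
    congr 1
    funext s
    fin_cases s <;> rfl
  have h2 : ∀ X Y Z W : Matrix (Fin n) (Fin n) K,
      tpf ![X, Y] * tpf ![Z, W] = tpf ![X * Z, Y * W] := by
    intro X Y Z W
    rw [tpf_mul]
    congr 1
    funext s
    fin_cases s <;> rfl
  rw [act_fix_iff, h0, h1, h2, h2, Matrix.mul_one, Matrix.one_mul]
  constructor
  · intro h
    rcases Nat.eq_zero_or_pos n with hn | hn
    · subst hn
      exact Subsingleton.elim _ _
    have hg : (g : Matrix (Fin n) (Fin n) K) ≠ 0 := by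
      intro h3
      have h4 := g.isUnit
      rw [h3] at h4
      have : Nonempty (Fin n) := ⟨⟨0, hn⟩⟩
      exact not_isUnit_zero h4
    obtain ⟨p, q, hpq⟩ : ∃ p q, (g : Matrix (Fin n) (Fin n) K) p q ≠ 0 := by
      by_contra hcon
      push Not at hcon
      apply hg
      ext p q
      exact hcon p q
    ext i j
    have h3 := congrFun (congrFun h ![i, p]) ![j, q]
    simp only [tpf, Fin.prod_univ_two, Matrix.cons_val_zero, Matrix.cons_val_one] at h3
    exact mul_right_cancel₀ hpq h3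
  · intro h
    rw [h]

end Fld

/-- the commutant of rational matrices over an extension -/
theorem commutant_base {n : ℕ} (N : Set (Matrix (Fin n) (Fin n) ℚ)) (C : Type) [Field C]
    [Algebra ℚ C] (Z : Submodule ℚ (Matrix (Fin n) (Fin n) ℚ))
    (hZ : ∀ e, (∀ A ∈ N, e * A = A * e) → e ∈ Z) (z : Matrix (Fin n) (Fin n) C)
    (hz : ∀ A ∈ N, z * A.map (algebraMap ℚ C) = A.map (algebraMap ℚ C) * z) :
    z ∈ spn C Z := by
  have key : ∀ (K : Type) [Field K] (A z : Matrix (Fin n) (Fin n) K) (p q : Fin n),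
      ∑ i, ∑ j, z i j * (Matrix.single i j (1 : K) * A - A * Matrix.single i j (1 : K)) p q =
        (z * A - A * z) p q := by
    intro K _ A z p q
    have h1 : z = ∑ i, ∑ j, z i j • Matrix.single i j (1 : K) := by
      conv_lhs => rw [Matrix.matrix_eq_sum_single z]
      refine Finset.sum_congr rfl fun i _ => Finset.sum_congr rfl fun j _ => ?_
      rw [Matrix.smul_single, smul_eq_mul, mul_one]
    conv_rhs => rw [h1]
    rw [Matrix.sum_mul, Matrix.mul_sum, ← Finset.sum_sub_distrib, Matrix.sum_apply]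
    refine Finset.sum_congr rfl fun i _ => ?_
    rw [Matrix.sum_mul, Matrix.mul_sum, ← Finset.sum_sub_distrib, Matrix.sum_apply]
    refine Finset.sum_congr rfl fun j _ => ?_
    rw [Matrix.smul_mul, Matrix.mul_smul, ← smul_sub, Matrix.smul_apply, smul_eq_mul]
  refine mem_span_of_forms (I := {A // A ∈ N} × Fin n × Fin n)
    (fun f i j => (Matrix.single i j (1 : ℚ) * f.1.1 - f.1.1 * Matrix.single i j (1 : ℚ))
      f.2.1 f.2.2) Z ?_ C z ?_
  · intro e he
    apply hZ
    intro A hA
    rw [← sub_eq_zero]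
    ext p q
    rw [← key]
    exact he ⟨⟨A, hA⟩, p, q⟩
  · rintro ⟨⟨A, hA⟩, p, q⟩
    have h1 := key C (A.map (algebraMap ℚ C)) z p q
    rw [hz A hA, sub_self, Matrix.zero_apply] at h1
    rw [← h1]
    refine Finset.sum_congr rfl fun i _ => Finset.sum_congr rfl fun j _ => ?_
    congr 1
    have h4 : (Matrix.single i j (1 : C)) = (Matrix.single i j (1 : ℚ)).map (algebraMap ℚ C) := by
      ext p q
      simp only [Matrix.single, Matrix.of_apply, Matrix.map_apply]
      split_ifs <;> simp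
    rw [h4, ← Matrix.map_mul, ← Matrix.map_mul]
    exact map_sub (algebraMap ℚ C) _ _

theorem bas_eq_map {n : ℕ} (C : Type) [Field C] [Algebra ℚ C] (ψ : Matrix (Fin n) (Fin n) ℚ) :
    bas C ψ = ψ.map (algebraMap ℚ C) := by
  ext i j
  simp [bas]

theorem map_cast_eq {n : ℕ} (C : Type) [Field C] [Algebra ℚ C] (e : Matrix (Fin n) (Fin n) ℚ) :
    e.map (fun x : ℚ => (x : C)) = e.map (algebraMap ℚ C) := by
  ext i j
  simp

/-- the matrices over `C` which kill the polarisation are infinitesimal similitudes -/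
theorem kill_polC {n : ℕ} (C : Type) [Field C] [Algebra ℚ C] (ψ : Matrix (Fin n) (Fin n) ℚ)
    (A : Matrix (Fin n) (Fin n) C) (hψ : ψ.det ≠ 0)
    (hA : Kill A ((polTen ψ).base C)) :
    ∃ c : C, A.transpose * ψ.map (algebraMap ℚ C) + ψ.map (algebraMap ℚ C) * A =
      c • ψ.map (algebraMap ℚ C) := by
  have : CharZero C := charZero_of_injective_algebraMap (algebraMap ℚ C).injective
  rcases Nat.eq_zero_or_pos n with h0 | h0
  · subst h0
    exact ⟨0, Subsingleton.elim _ _⟩
  have hu : IsUnit ψ.det := isUnit_iff_ne_zero.mpr hψ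
  have hne : ∃ i j, ψ⁻¹ i j ≠ 0 := by
    by_contra hcon
    push Not at hcon
    have h0' : ψ⁻¹ = 0 := by ext i j; exact hcon i j
    have h1 := Matrix.mul_nonsing_inv ψ hu
    rw [h0', Matrix.mul_zero] at h1
    have h2 := congrFun (congrFun h1 ⟨0, h0⟩) ⟨0, h0⟩
    simp at h2
  obtain ⟨i0, i1, hi⟩ := hne
  set ψ' := ψ.map (algebraMap ℚ C) with hψ'
  set χ := (ψ⁻¹).map (algebraMap ℚ C) with hχ
  have hi' : χ i0 i1 ≠ 0 := by
    rw [hχ, Matrix.map_apply]
    exact (map_ne_zero (algebraMap ℚ C)).mpr hi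
  unfold Kill at hA
  have hp : (Matrix.of ((polTen ψ).base C) : Matrix (Fin 2 → Fin n) (Fin 2 → Fin n) C) =
      polT χ ψ' := by
    ext i j
    simp [polTen, Tensor.base, polT, hχ, hψ']
  rw [hp, dtp_two, Matrix.add_mul, Matrix.mul_add] at hA
  refine ⟨(χ i0 i1)⁻¹ * ((A * χ + χ * A.transpose) i0 i1), ?_⟩
  ext j0 j1
  have h1 := congrFun (congrFun hA ![i0, i1]) ![j0, j1]
  rw [Matrix.add_apply, Matrix.add_apply, tpf_two_polT, tpf_two_polT, polT_tpf_two,
    polT_tpf_two] at h1
  simp only [Matrix.cons_val_zero, Matrix.cons_val_one, Matrix.transpose_one, Matrix.mul_one,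
    Matrix.one_mul] at h1
  rw [Matrix.smul_apply, smul_eq_mul, Matrix.add_apply, Matrix.add_apply]
  have h2 : χ i0 i1 * ((A.transpose * ψ') j0 j1 + (ψ' * A) j0 j1) =
      ((A * χ) i0 i1 + (χ * A.transpose) i0 i1) * ψ' j0 j1 := by
    linear_combination -h1
  rw [mul_assoc, ← h2, ← mul_assoc, inv_mul_cancel₀ hi', one_mul]

section Mot

variable {F : Type} [Field F] [NumberField F] {S : Finset ℕ} {n w : ℕ} {h : Fin n → ℕ}

theorem hodge_two (M : PMot F S n w h) (e : Matrix (Fin n) (Fin n) ℚ) (he : HodgeEnd M e) :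
    M.IsHodge (two e) := by
  intro z
  rw [two_base, map_cast_eq, act_two]
  exact he z

/-- the matrices which commute with `B diag(h) B⁻¹` commute with the Hodge cocharacter -/
theorem commute_hz (B : Matrix.GeneralLinearGroup (Fin n) ℂ) (h : Fin n → ℕ) (w : ℕ)
    (X : Matrix (Fin n) (Fin n) ℂ)
    (hX : ((B : Matrix (Fin n) (Fin n) ℂ) * Matrix.diagonal (fun j => (h j : ℂ)) *
      ((B⁻¹ : Matrix.GeneralLinearGroup (Fin n) ℂ) : Matrix (Fin n) (Fin n) ℂ)) * X =
      X * ((B : Matrix (Fin n) (Fin n) ℂ) * Matrix.diagonal (fun j => (h j : ℂ)) *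
      ((B⁻¹ : Matrix.GeneralLinearGroup (Fin n) ℂ) : Matrix (Fin n) (Fin n) ℂ))) (z : ℂˣ) :
    (hz B h w z : Matrix (Fin n) (Fin n) ℂ) * X = X * (hz B h w z : Matrix (Fin n) (Fin n) ℂ) := by
  set b : Matrix (Fin n) (Fin n) ℂ := (B : Matrix (Fin n) (Fin n) ℂ) with hb
  set b' : Matrix (Fin n) (Fin n) ℂ :=
    ((B⁻¹ : Matrix.GeneralLinearGroup (Fin n) ℂ) : Matrix (Fin n) (Fin n) ℂ) with hb'
  have hbb' : b * b' = 1 := Units.mul_inv B
  have hb'b : b' * b = 1 := Units.inv_mul B
  set Y := b' * X * b with hY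
  have hXY : X = b * Y * b' := by
    rw [hY]
    calc X = (b * b') * X * (b * b') := by rw [hbb', Matrix.one_mul, Matrix.mul_one]
      _ = _ := by simp only [Matrix.mul_assoc]
  have h1 : Matrix.diagonal (fun j => (h j : ℂ)) * Y = Y * Matrix.diagonal (fun j => (h j : ℂ)) := by
    have h2 : b' * (b * Matrix.diagonal (fun j => (h j : ℂ)) * b' * X) * b =
        b' * (X * (b * Matrix.diagonal (fun j => (h j : ℂ)) * b')) * b := by rw [hX]
    have e1 : b' * (b * Matrix.diagonal (fun j => (h j : ℂ)) * b' * X) * b =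
        (b' * b) * Matrix.diagonal (fun j => (h j : ℂ)) * (b' * X * b) := by
      simp only [Matrix.mul_assoc]
    have e2 : b' * (X * (b * Matrix.diagonal (fun j => (h j : ℂ)) * b')) * b =
        (b' * X * b) * Matrix.diagonal (fun j => (h j : ℂ)) * (b' * b) := by
      simp only [Matrix.mul_assoc]
    rw [e1, e2, hb'b, Matrix.one_mul, Matrix.mul_one] at h2
    exact h2
  have h2 : ∀ i j, Y i j ≠ 0 → h i = h j := by
    intro i j hij
    have h3 := congrFun (congrFun h1 i) j
    rw [Matrix.diagonal_mul, Matrix.mul_diagonal, mul_comm] at h3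
    have h4 := mul_left_cancel₀ hij h3
    exact_mod_cast h4
  have h3 : Matrix.diagonal (fun j => (z : ℂ) ^ h j * (starRingEnd ℂ) (z : ℂ) ^ (w - h j)) * Y =
      Y * Matrix.diagonal (fun j => (z : ℂ) ^ h j * (starRingEnd ℂ) (z : ℂ) ^ (w - h j)) := by
    ext i j
    rw [Matrix.diagonal_mul, Matrix.mul_diagonal]
    by_cases hij : Y i j = 0
    · rw [hij, mul_zero, zero_mul]
    · rw [h2 i j hij, mul_comm]
  have hzc : (hz B h w z : Matrix (Fin n) (Fin n) ℂ) = b * Matrix.diagonal (fun j =>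
      (z : ℂ) ^ h j * (starRingEnd ℂ) (z : ℂ) ^ (w - h j)) * b' := hz_coe B h w z
  rw [hzc, hXY]
  calc b * Matrix.diagonal (fun j => (z : ℂ) ^ h j * (starRingEnd ℂ) (z : ℂ) ^ (w - h j)) * b' *
        (b * Y * b')
      = b * Matrix.diagonal (fun j => (z : ℂ) ^ h j * (starRingEnd ℂ) (z : ℂ) ^ (w - h j)) *
        (b' * b) * Y * b' := by simp only [Matrix.mul_assoc]
    _ = b * (Matrix.diagonal (fun j => (z : ℂ) ^ h j * (starRingEnd ℂ) (z : ℂ) ^ (w - h j)) * Y) *
        b' := by
        rw [hb'b, Matrix.mul_one]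
        simp only [Matrix.mul_assoc]
    _ = b * Y * (b' * b) *
        Matrix.diagonal (fun j => (z : ℂ) ^ h j * (starRingEnd ℂ) (z : ℂ) ^ (w - h j)) * b' := by
        rw [h3, hb'b, Matrix.mul_one]
        simp only [Matrix.mul_assoc]
    _ = _ := by simp only [Matrix.mul_assoc]

/-- the rational matrices which commute with the Lie algebra are Hodge endomorphisms -/
theorem hodgeEnd_of_commute (M : PMot F S n w h) (hw : 0 < w) (e : Matrix (Fin n) (Fin n) ℚ)
    (he : ∀ A ∈ mlie M, e * A = A * e) : HodgeEnd M e := by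
  intro z
  apply commute_hz
  have h1 : ∀ X ∈ spn ℂ (mlie M), X * e.map (algebraMap ℚ ℂ) = e.map (algebraMap ℚ ℂ) * X := by
    intro X hX
    unfold spn at hX
    induction hX using Submodule.span_induction with
    | mem x hx =>
      obtain ⟨A, hA, rfl⟩ := hx
      rw [← Matrix.map_mul, ← Matrix.map_mul, he A hA]
    | zero => rw [Matrix.zero_mul, Matrix.mul_zero]
    | add x y _ _ hx hy => rw [Matrix.add_mul, Matrix.mul_add, hx, hy]
    | smul c x _ hx => rw [Matrix.smul_mul, Matrix.mul_smul, hx]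
  exact h1 _ (hodge_mem_spn M hw)

/-- the elements of the Lie algebra commute with the Hodge endomorphisms -/
theorem mlie_commute (M : PMot F S n w h) (C : Type) [Field C] [Algebra ℚ C]
    (e : Matrix (Fin n) (Fin n) ℚ) (he : HodgeEnd M e) (X : Matrix (Fin n) (Fin n) C)
    (hX : X ∈ spn C (mlie M)) : X * e.map (algebraMap ℚ C) = e.map (algebraMap ℚ C) * X := by
  unfold spn at hX
  induction hX using Submodule.span_induction with
  | mem x hx =>
    obtain ⟨A, hA, rfl⟩ := hx
    rw [← Matrix.map_mul, ← Matrix.map_mul, (kill_two A e).mp (hA 2 2 _ (hodge_two M e he))]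
  | zero => rw [Matrix.zero_mul, Matrix.mul_zero]
  | add x y _ _ hx hy => rw [Matrix.add_mul, Matrix.mul_add, hx, hy]
  | smul c x _ hx => rw [Matrix.smul_mul, Matrix.mul_smul, hx]

/-- the centre of the algebra of Hodge endomorphisms (as the commutant of the Lie algebra and of the
Hodge endomorphisms) -/
def cen (M : PMot F S n w h) : Submodule ℚ (Matrix (Fin n) (Fin n) ℚ) where
  carrier := {e | ∀ A, A ∈ mlie M ∨ HodgeEnd M A → e * A = A * e}
  add_mem' := fun {x y} hx hy A hA => by rw [Matrix.add_mul, Matrix.mul_add, hx A hA, hy A hA]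
  zero_mem' := fun A _ => by rw [Matrix.zero_mul, Matrix.mul_zero]
  smul_mem' := fun c x hx A hA => by rw [Matrix.smul_mul, Matrix.mul_smul, hx A hA]

/-- in the absence of complex multiplication the centre is self-adjoint -/
theorem cen_self (M : PMot F S n w h) (hw : 0 < w) (hcm : NoCM M) (C : Type) [Field C]
    [Algebra ℚ C] (z : Matrix (Fin n) (Fin n) C) (hz : z ∈ spn C (cen M)) :
    z.transpose * M.ψ.map (algebraMap ℚ C) = M.ψ.map (algebraMap ℚ C) * z := by
  unfold spn at hz
  induction hz using Submodule.span_induction with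
  | mem x hx =>
    obtain ⟨e, he, rfl⟩ := hx
    have h1 : HodgeEnd M e := hodgeEnd_of_commute M hw e fun A hA => he A (Or.inl hA)
    have h2 := hcm e h1 fun e' he' => he e' (Or.inr he')
    have hu : IsUnit M.ψ.det := isUnit_iff_ne_zero.mpr M.ψ_det
    have h3 : e.transpose * M.ψ = M.ψ * e := by
      conv_rhs => rw [← h2]
      rw [Matrix.mul_assoc, ← Matrix.mul_assoc, Matrix.mul_nonsing_inv _ hu, Matrix.one_mul]
    rw [← Matrix.transpose_map, ← Matrix.map_mul, ← Matrix.map_mul, h3]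
  | zero => rw [Matrix.transpose_zero, Matrix.zero_mul, Matrix.mul_zero]
  | add x y _ _ hx hy => rw [Matrix.transpose_add, Matrix.add_mul, Matrix.mul_add, hx, hy]
  | smul c x _ hx => rw [Matrix.transpose_smul, Matrix.smul_mul, Matrix.mul_smul, hx]

/-- a self-adjoint infinitesimal similitude is scalar -/
theorem scalar_of_self (M : PMot F S n w h) (C : Type) [Field C] [Algebra ℚ C]
    (z : Matrix (Fin n) (Fin n) C)
    (hz : z.transpose * M.ψ.map (algebraMap ℚ C) = M.ψ.map (algebraMap ℚ C) * z) (c : C)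
    (hc : z.transpose * M.ψ.map (algebraMap ℚ C) + M.ψ.map (algebraMap ℚ C) * z =
      c • M.ψ.map (algebraMap ℚ C)) :
    z = (2⁻¹ * c) • (1 : Matrix (Fin n) (Fin n) C) := by
  have hC : CharZero C := charZero_of_injective_algebraMap (algebraMap ℚ C).injective
  set ψ' := M.ψ.map (algebraMap ℚ C) with hψ'
  have hu : IsUnit ψ'.det := by
    have h1 : ψ'.det = algebraMap ℚ C M.ψ.det := (RingHom.map_det (algebraMap ℚ C) M.ψ).symm
    rw [h1]
    exact (isUnit_iff_ne_zero.mpr M.ψ_det).map _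
  rw [hz, ← two_smul C] at hc
  have h2 : z = ψ'⁻¹ * (ψ' * z) := by
    rw [← Matrix.mul_assoc, Matrix.nonsing_inv_mul _ hu, Matrix.one_mul]
  have h3 : ψ' * z = (2⁻¹ * c) • ψ' := by
    rw [mul_smul, ← hc, smul_smul, inv_mul_cancel₀ two_ne_zero, one_smul]
  rw [h2, h3, Matrix.mul_smul, Matrix.nonsing_inv_mul _ hu]

theorem one_mem_spn (M : PMot F S n w h) (hw : 0 < w) (C : Type) [Field C] [Algebra ℚ C] :
    (1 : Matrix (Fin n) (Fin n) C) ∈ spn C (mlie M) := by
  have h1 := mem_spn (C := C) (mlie M) (one_mem_mlie M hw)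
  rwa [Matrix.map_one _ (map_zero _) (map_one _)] at h1

/-- the key step: an infinitesimal similitude which commutes with the Lie algebra and with the Hodge
endomorphisms is scalar -/
theorem scalar_of_central (M : PMot F S n w h) (hw : 0 < w) (hcm : NoCM M) (C : Type) [Field C]
    [Algebra ℚ C] (z : Matrix (Fin n) (Fin n) C)
    (hz : ∀ A, A ∈ mlie M ∨ HodgeEnd M A →
      z * A.map (algebraMap ℚ C) = A.map (algebraMap ℚ C) * z) (c : C)
    (hc : z.transpose * M.ψ.map (algebraMap ℚ C) + M.ψ.map (algebraMap ℚ C) * z =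
      c • M.ψ.map (algebraMap ℚ C)) :
    z = (2⁻¹ * c) • (1 : Matrix (Fin n) (Fin n) C) := by
  refine scalar_of_self M C z (cen_self M hw hcm C z ?_) c hc
  exact commutant_base {A | A ∈ mlie M ∨ HodgeEnd M A} C (cen M) (fun e he A hA => he A hA) z hz

/-- ALG0: the algebraic part, in general: a matrix which kills the Hodge classes in `T^(2,2)` is in
the Lie algebra up to a central infinitesimal similitude. -/
theorem st_ALG0 (cas2 : ST_CAS2) (M : PMot F S n w h) (hw : 0 < w) (C : Type) [Field C]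
    [Algebra ℚ C] (x : Matrix (Fin n) (Fin n) C)
    (hx : ∀ t : Tensor n 2 2 ℚ, M.IsHodge t → Kill x (t.base C)) :
    ∃ y ∈ spn C (mlie M), (∀ A, A ∈ mlie M ∨ HodgeEnd M A →
      (x - y) * A.map (algebraMap ℚ C) = A.map (algebraMap ℚ C) * (x - y)) ∧
      ∃ c : C, (x - y).transpose * M.ψ.map (algebraMap ℚ C) + M.ψ.map (algebraMap ℚ C) * (x - y) =
        c • M.ψ.map (algebraMap ℚ C) := by
  obtain ⟨Ω, hΩ1, hΩ2⟩ := cas2 n (mlie M) (fun A hA hAB => mlie_nondeg st_POS M hw A hA hAB)
  have hΩ : M.IsHodge Ω := by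
    intro z
    refine hΩ1 _ (spn_conj_hz M _ fun a b t ht => ht z) ?_
    have h1 := spn_conj_hz M (hz M.hodge h w z)⁻¹ fun a b t ht => hz_fix_inv M z a b t ht
    rw [inv_inv] at h1
    exact h1
  obtain ⟨hc1, hc2, hc3⟩ := hΩ2 C
  have hbr := spn_br (C := C) (mlie M) fun A hA B hB a b t ht => (hA a b t ht).lie (hB a b t ht)
  have hxU := hc1 x (hx Ω hΩ)
  obtain ⟨y, hy, hxy⟩ := hc2 x
  -- `z = x - y` commutes with the Lie algebra
  have hzU : ∀ A ∈ spn C (mlie M), (x - y) * A = A * (x - y) := by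
    intro A hA
    rw [← sub_eq_zero]
    apply hc3
    · have h1 : (x - y) * A - A * (x - y) = (x * A - A * x) - (y * A - A * y) := by
        rw [Matrix.sub_mul, Matrix.mul_sub]
        abel
      rw [h1]
      exact (spn C (mlie M)).sub_mem (hxU A hA) (hbr y hy A hA)
    · intro B hB
      have h1 : ∀ Z : Matrix (Fin n) (Fin n) C,
          ((Z * A - A * Z) * B).trace = (Z * (A * B - B * A)).trace := by
        intro Z
        have h3 : (A * Z * B).trace = (Z * (B * A)).trace := by
          rw [Matrix.mul_assoc, Matrix.trace_mul_comm, Matrix.mul_assoc]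
        rw [Matrix.sub_mul, Matrix.trace_sub, h3, Matrix.mul_sub, Matrix.trace_sub,
          Matrix.mul_assoc]
      rw [h1]
      exact hxy _ (hbr A hA B hB)
  have hzE : ∀ e, HodgeEnd M e → (x - y) * e.map (algebraMap ℚ C) =
      e.map (algebraMap ℚ C) * (x - y) := by
    intro e he
    have h1 := hx _ (hodge_two M e he)
    rw [two_base, map_cast_eq, kill_two] at h1
    rw [Matrix.sub_mul, Matrix.mul_sub, h1, mlie_commute M C e he y hy]
  obtain ⟨c, hc⟩ := kill_polC C M.ψ x M.ψ_det (hx _ (hodge_pol M))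
  obtain ⟨d, hd⟩ := spn_sim (C := C) (mlie M) M.ψ (mlie_sim M) y hy
  have hcd : (x - y).transpose * M.ψ.map (algebraMap ℚ C) + M.ψ.map (algebraMap ℚ C) * (x - y) =
      (c - d) • M.ψ.map (algebraMap ℚ C) := by
    rw [sub_smul, ← hc, ← hd, Matrix.transpose_sub, Matrix.sub_mul, Matrix.mul_sub]
    abel
  refine ⟨y, hy, fun A hA => ?_, c - d, hcd⟩
  rcases hA with hA | hA
  · exact hzU _ (mem_spn _ hA)
  · exact hzE A hA

/-- ALG -/
theorem st_ALG (cas2 : ST_CAS2) : ST_ALG := by
  intro F _ _ S n w h M hw hcm C _ _ x hx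
  obtain ⟨y, hy, hz, c, hc⟩ := st_ALG0 cas2 M hw C x hx
  have hsc := scalar_of_central M hw hcm C (x - y) hz c hc
  have hfin : x = y + (2⁻¹ * c) • (1 : Matrix (Fin n) (Fin n) C) := by
    rw [← hsc]
    abel
  rw [hfin]
  exact (spn C (mlie M)).add_mem hy ((spn C (mlie M)).smul_mem _ (one_mem_spn M hw C))

/-- two central matrices commute -/
theorem central_comm (M : PMot F S n w h) (hw : 0 < w) (C : Type) [Field C]
    [Algebra ℚ C] (z z' : Matrix (Fin n) (Fin n) C)
    (hz : ∀ A, A ∈ mlie M ∨ HodgeEnd M A →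
      z * A.map (algebraMap ℚ C) = A.map (algebraMap ℚ C) * z)
    (hz' : ∀ A, A ∈ mlie M ∨ HodgeEnd M A →
      z' * A.map (algebraMap ℚ C) = A.map (algebraMap ℚ C) * z') : z * z' = z' * z := by
  have h1 : z' ∈ spn C (cen M) :=
    commutant_base {A | A ∈ mlie M ∨ HodgeEnd M A} C (cen M) (fun e he A hA => he A hA) z' hz'
  clear hz'
  unfold spn at h1
  induction h1 using Submodule.span_induction with
  | mem x hx =>
    obtain ⟨e, he, rfl⟩ := hx
    exact hz e (Or.inr (hodgeEnd_of_commute M hw e fun A hA => he A (Or.inl hA)))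
  | zero => rw [Matrix.zero_mul, Matrix.mul_zero]
  | add x y _ _ hx hy => rw [Matrix.add_mul, Matrix.mul_add, hx, hy]
  | smul c x _ hx => rw [Matrix.smul_mul, Matrix.mul_smul, hx]

/-- a central matrix commutes with the Lie algebra over `C` -/
theorem central_spn (M : PMot F S n w h) (C : Type) [Field C]
    [Algebra ℚ C] (z X : Matrix (Fin n) (Fin n) C)
    (hz : ∀ A, A ∈ mlie M ∨ HodgeEnd M A →
      z * A.map (algebraMap ℚ C) = A.map (algebraMap ℚ C) * z) (hX : X ∈ spn C (mlie M)) :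
    z * X = X * z := by
  unfold spn at hX
  induction hX using Submodule.span_induction with
  | mem x hx =>
    obtain ⟨A, hA, rfl⟩ := hx
    exact hz A (Or.inl hA)
  | zero => rw [Matrix.zero_mul, Matrix.mul_zero]
  | add x y _ _ hx hy => rw [Matrix.add_mul, Matrix.mul_add, hx, hy]
  | smul c x _ hx => rw [Matrix.smul_mul, Matrix.mul_smul, hx]

end Mot

end HG
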