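import Pool.Agent.Helper6.HD.All

/-!
# The Mumford-Tate conjecture and the tensor space `T^(2,2)`: definitions and statements

`M` is any polarised pure motive over a number field `F` (`MT.PMot`); `mlie M` (file HD/Base) is the
Lie algebra of the Mumford-Tate group and `glie M l` that of the `l`-adic monodromy group.
-/

set_option autoImplicit false

open NumberField MU MT HD

namespace HG

variable {F : Type} [Field F] [NumberField F] {S : Finset ℕ} {n w : ℕ} {h : Fin n → ℕ}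

/-- The Lie algebra of the `l`-adic monodromy group: the matrices in the Lie algebra of the Zariski
closure of the image of every open subgroup of the Galois group. -/
noncomputable def glie (M : PMot F S n w h) (l : ℕ) [Fact l.Prime] :
    Submodule ℚ_[l] (Matrix (Fin n) (Fin n) ℚ_[l]) :=
  ⨅ (H : Subgroup (Gal F)) (_ : IsOpen (H : Set (Gal F))), LieZ (H.map (M.ρ l))

/-- Tate classes with coefficients in `ℚ_l`: the tensors invariant under an open subgroup of the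
Galois group -/
def IsTateL (M : PMot F S n w h) (l : ℕ) [Fact l.Prime] {a b : ℕ} (t : Tensor n a b ℚ_[l]) :
    Prop :=
  ∃ H : Subgroup (Gal F), IsOpen (H : Set (Gal F)) ∧ ∀ g ∈ H, act (M.ρ l g) t = t

/-- the endomorphisms of the Hodge structure of `M` -/
def HodgeEnd (M : PMot F S n w h) (e : Matrix (Fin n) (Fin n) ℚ) : Prop :=
  ∀ z : ℂˣ, (hz M.hodge h w z : Matrix (Fin n) (Fin n) ℂ) * e.map (algebraMap ℚ ℂ) =
    e.map (algebraMap ℚ ℂ) * (hz M.hodge h w z : Matrix (Fin n) (Fin n) ℂ)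

/-- No factor with complex multiplication: the endomorphisms in the centre of the algebra of
endomorphisms of the Hodge structure are self-adjoint for the polarisation. -/
def NoCM (M : PMot F S n w h) : Prop :=
  ∀ e : Matrix (Fin n) (Fin n) ℚ, HodgeEnd M e → (∀ e', HodgeEnd M e' → e * e' = e' * e) →
    M.ψ⁻¹ * e.transpose * M.ψ = e

/-- the `ℚ_l`-span of the Hodge classes in `T^(a,b)` -/
def hodgeSpan (M : PMot F S n w h) (C : Type) [Field C] (a b : ℕ) :
    Submodule C (Tensor n a b C) :=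
  Submodule.span C {s | ∃ t : Tensor n a b ℚ, M.IsHodge t ∧ s = t.base C}

/-- TK: Tate classes are killed by the Lie algebra (the polynomials `tenEq` vanish on the image). -/
def ST_TK : Prop :=
  ∀ (F : Type) [Field F] [NumberField F] (S : Finset ℕ) (n w : ℕ) (h : Fin n → ℕ)
    (M : PMot F S n w h) (l : ℕ) [Fact l.Prime] (a b : ℕ) (t : Tensor n a b ℚ_[l]),
    IsTateL M l t → ∀ A ∈ glie M l, Kill A t

/-- KT: conversely (logarithm). Let `H₀` be an open subgroup with `ρ_l(h) ≡ 1` modulo `l²` and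
`act (ρ_l(h)) ≡ 1` modulo `l²` on `T^(a,b)`. For `h ∈ H₀` the limit `A` of
`(ρ_l(h)^(l^m) - 1) / l^m` exists; for every open `H` (with `g^e ∈ H` for all `g`) a polynomial
vanishing on `ρ_l(H)` vanishes at `ρ_l(h)^(e l^m)`, so `e A` is in `LieZ`, and `A` is in `glie`. On
the tensors, `R = act (ρ_l(h))` satisfies `(R^(l^m) - 1) / l^m = (R - 1) u_m` with `u_m ≡ 1` modulo
`l`, so `|dR(A) t| = |(R - 1) t|`. -/
def ST_KT : Prop :=
  ∀ (F : Type) [Field F] [NumberField F] (S : Finset ℕ) (n w : ℕ) (h : Fin n → ℕ)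
    (M : PMot F S n w h) (l : ℕ) [Fact l.Prime] (a b : ℕ) (t : Tensor n a b ℚ_[l]),
    (∀ A ∈ glie M l, Kill A t) → IsTateL M l t

/-- CAS2: the Casimir element, with its infinitesimal properties over every extension `C`. -/
def ST_CAS2 : Prop :=
  ∀ (n : ℕ) (U : Submodule ℚ (Matrix (Fin n) (Fin n) ℚ)),
    (∀ A ∈ U, (∀ B ∈ U, (A * B).trace = 0) → A = 0) →
    ∃ Ω : Tensor n 2 2 ℚ,
      (∀ g : Matrix.GeneralLinearGroup (Fin n) ℂ,
        (∀ X ∈ spn ℂ U, (g : Matrix (Fin n) (Fin n) ℂ) * X *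
          ((g⁻¹ : Matrix.GeneralLinearGroup (Fin n) ℂ) : Matrix (Fin n) (Fin n) ℂ) ∈ spn ℂ U) →
        (∀ X ∈ spn ℂ U, ((g⁻¹ : Matrix.GeneralLinearGroup (Fin n) ℂ) :
          Matrix (Fin n) (Fin n) ℂ) * X * (g : Matrix (Fin n) (Fin n) ℂ) ∈ spn ℂ U) →
        act g (Ω.base ℂ) = Ω.base ℂ) ∧
      ∀ (C : Type) [Field C] [Algebra ℚ C],
        (∀ x : Matrix (Fin n) (Fin n) C, Kill x (Ω.base C) → ∀ A ∈ spn C U,
          x * A - A * x ∈ spn C U) ∧
        (∀ x : Matrix (Fin n) (Fin n) C, ∃ y ∈ spn C U, ∀ B ∈ spn C U,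
          ((x - y) * B).trace = 0) ∧
        (∀ X ∈ spn C U, (∀ B ∈ spn C U, (X * B).trace = 0) → X = 0)

/-- BC: base change for tensors killed by a space of matrices. -/
def ST_BC : Prop :=
  ∀ (n a b : ℕ) (U : Submodule ℚ (Matrix (Fin n) (Fin n) ℚ)) (C : Type) [Field C] [Algebra ℚ C]
    (t : Tensor n a b C), (∀ A ∈ U, Kill (A.map (algebraMap ℚ C)) t) →
    t ∈ Submodule.span C {s : Tensor n a b C | ∃ t₀ : Tensor n a b ℚ,
      (∀ A ∈ U, Kill A t₀) ∧ s = t₀.base C}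

/-- HK: the rational tensors killed by the Lie algebra of the Mumford-Tate group are the Hodge
tensors. -/
def ST_HK : Prop :=
  ∀ (F : Type) [Field F] [NumberField F] (S : Finset ℕ) (n w : ℕ) (h : Fin n → ℕ)
    (M : PMot F S n w h), 0 < w → ∀ (a b : ℕ) (t : Tensor n a b ℚ),
    (∀ A ∈ mlie M, Kill A t) → M.IsHodge t

/-- ALG: the algebraic part. -/
def ST_ALG : Prop :=
  ∀ (F : Type) [Field F] [NumberField F] (S : Finset ℕ) (n w : ℕ) (h : Fin n → ℕ)
    (M : PMot F S n w h), 0 < w → NoCM M → ∀ (C : Type) [Field C] [Algebra ℚ C]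
    (x : Matrix (Fin n) (Fin n) C),
    (∀ t : Tensor n 2 2 ℚ, M.IsHodge t → Kill x (t.base C)) → x ∈ spn C (mlie M)

/-- G1: Hodge implies Tate in `T^(2,2)` gives Hodge implies Tate everywhere. -/
def ST_G1 : Prop :=
  ∀ (F : Type) [Field F] [NumberField F] (S : Finset ℕ) (n w : ℕ) (h : Fin n → ℕ)
    (M : PMot F S n w h), 0 < w → NoCM M → ∀ (l : ℕ) [Fact l.Prime],
    (∀ t : Tensor n 2 2 ℚ, M.IsHodge t → IsTate M l t) →
    ∀ (a b : ℕ) (t : Tensor n a b ℚ), M.IsHodge t → IsTate M l t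

/-- G2: the Mumford-Tate conjecture in `T^(2,2)` gives the Mumford-Tate conjecture. -/
def ST_G2 : Prop :=
  ∀ (F : Type) [Field F] [NumberField F] (S : Finset ℕ) (n w : ℕ) (h : Fin n → ℕ)
    (M : PMot F S n w h), 0 < w → NoCM M → ∀ (l : ℕ) [Fact l.Prime],
    (∀ t : Tensor n 2 2 ℚ_[l], IsTateL M l t ↔ t ∈ hodgeSpan M ℚ_[l] 2 2) →
    (∀ W : Submodule ℚ_[l] (Matrix (Fin n) (Fin n) ℚ_[l]), (∀ g : Gal F, ∀ A ∈ W,
      mat (M.ρ l) g * A * mat (M.ρ l) g⁻¹ ∈ W) → ∃ W', (∀ g : Gal F, ∀ A ∈ W',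
      mat (M.ρ l) g * A * mat (M.ρ l) g⁻¹ ∈ W') ∧ IsCompl W W') →
    glie M l = spn ℚ_[l] (mlie M) ∧
    ∀ (a b : ℕ) (t : Tensor n a b ℚ_[l]), IsTateL M l t ↔ t ∈ hodgeSpan M ℚ_[l] a b

end HG
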