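import Pool.Agent.Helper6.HG.Defs

/-!
# Mumford-Tate and `T^(2,2)`: statements for the group version
-/

set_option autoImplicit false

open NumberField MU MT HD

namespace HG

/-- DC: the double commutant theorem over `ℚ` for an algebra of matrices with non-degenerate trace
form (the algebra is semisimple: its Jacobson radical is nilpotent, so in the kernel of the trace
form; `jacobson_density`), and its extension to `K` (linear equations with rational coefficients). -/
def ST_DC : Prop :=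
  ∀ (ι : Type) [Fintype ι] [DecidableEq ι] (U : Set (Matrix ι ι ℚ)),
    (∀ A ∈ Algebra.adjoin ℚ U, (∀ B ∈ Algebra.adjoin ℚ U, (A * B).trace = 0) → A = 0) →
    ∀ (K : Type) [Field K] [Algebra ℚ K] (X : Matrix ι ι K),
      (∀ T : Matrix ι ι ℚ, (∀ A ∈ U, T * A = A * T) →
        X * T.map (algebraMap ℚ K) = T.map (algebraMap ℚ K) * X) →
      X ∈ Submodule.span K {Y | ∃ A ∈ Algebra.adjoin ℚ U, Y = A.map (algebraMap ℚ K)}

/-- POSJ: the positivity `POS` on the tensor powers (with `P = Lᴴ L` the matrix `tp j P` is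
`(tp j L)ᴴ (tp j L)`). -/
def ST_POSJ : Prop :=
  ∀ (F : Type) [Field F] [NumberField F] (S : Finset ℕ) (n w : ℕ) (h : Fin n → ℕ)
    (M : PMot F S n w h) (j : ℕ) (A : Matrix (Fin j → Fin n) (Fin j → Fin n) ℚ) (z : ℂˣ),
    (z : ℂ) = Complex.I →
    (A.map (algebraMap ℚ ℂ) * (MT.tp j (hz M.hodge h w z : Matrix (Fin n) (Fin n) ℂ) *
      (MT.tp j M.ψ⁻¹ * A.transpose * MT.tp j M.ψ).map (algebraMap ℚ ℂ) *
        MT.tp j (((hz M.hodge h w z)⁻¹ : Matrix.GeneralLinearGroup (Fin n) ℂ) :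
          Matrix (Fin n) (Fin n) ℂ))).trace = 0 → A = 0

/-- HOM: if the Lie algebra contains the scalars, the vanishing ideal is homogeneous (`ldv 1` is the
Euler operator and preserves the ideal, `st_ZAR` part 3). -/
def ST_HOM : Prop :=
  ∀ (K₀ : Type) [Field K₀] [CharZero K₀] (n : ℕ)
    (X : Subgroup (Matrix.GeneralLinearGroup (Fin n) K₀)),
    (1 : Matrix (Fin n) (Fin n) K₀) ∈ LieZ X → ∀ f : MvPolynomial (Fin n × Fin n) K₀,
    (∀ x ∈ X, ev (x : Matrix (Fin n) (Fin n) K₀) f = 0) → ∀ (d : ℕ), ∀ x ∈ X,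
      ev (x : Matrix (Fin n) (Fin n) K₀) (MvPolynomial.homogeneousComponent d f) = 0

/-- REP: the homogeneous polynomials of degree `d` are the functions `X ↦ tr (c · X^(⊗ d))`. -/
def ST_REP : Prop :=
  ∀ (K₀ : Type) [Field K₀] (n d : ℕ),
    (∀ c : Matrix (Fin d → Fin n) (Fin d → Fin n) K₀, ∃ f : MvPolynomial (Fin n × Fin n) K₀,
      (∀ (K : Type) [Field K] [Algebra K₀ K] (X : Matrix (Fin n) (Fin n) K),
        ev X f = (c.map (algebraMap K₀ K) * MT.tp d X).trace) ∧
      ∀ A : Matrix (Fin n) (Fin n) K₀, ∑ i, ∑ j, A i j *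
        ev (1 : Matrix (Fin n) (Fin n) K₀) (MvPolynomial.pderiv (i, j) f) =
          (c * dtp d A).trace) ∧
    ∀ f : MvPolynomial (Fin n × Fin n) K₀, f.IsHomogeneous d →
      ∃ c : Matrix (Fin d → Fin n) (Fin d → Fin n) K₀,
        ∀ (K : Type) [Field K] [Algebra K₀ K] (X : Matrix (Fin n) (Fin n) K),
          ev X f = (c.map (algebraMap K₀ K) * MT.tp d X).trace

/-- GRP: the group version. -/
def ST_GRP : Prop :=
  ∀ (F : Type) [Field F] [NumberField F] (S : Finset ℕ) (n w : ℕ) (h : Fin n → ℕ)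
    (M : PMot F S n w h), 0 < w → ∀ (l : ℕ) [Fact l.Prime],
    glie M l = spn ℚ_[l] (mlie M) →
    ∀ (K : Type) [Field K] [Algebra ℚ_[l] K], M.Gl0 l K = M.Gsigma K

end HG
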