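import Pool.Agent.Helper6.HG.Defs

/-!
# Mumford-Tate and `T^(2,2)`: statements for the trace form of the monodromy Lie algebra
-/

set_option autoImplicit false

open NumberField MU MT HD

namespace HG

/-- RPL: replicas (Chevalley, Humphreys 4.3). Let `A = s + N` be the Jordan decomposition over `C`,
`s = Q diag(μ) Q⁻¹`. For every additive map `φ : C → C` the matrix `B = Q diag(φ μ) Q⁻¹` is in the
Lie algebra over `C` of every group `X` with `A ∈ LieZ X`.
Proof: the ideal `I` over `C` of `X` in the polynomials of degree at most `D` is stable under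
`ldv A` (`st_ZAR` part 3), hence the sum of its generalised eigenspaces
(`Module.End.iSup_maxGenEigenspace_eq_top`); in the variables `Y = X Q` one has
`ldv s Y_ij = μ_j Y_ij`, `ldv B Y_ij = φ(μ_j) Y_ij`, `ldv N` is locally nilpotent and commutes with
`ldv s`; so `ldv B` is multiplication by `φ(χ)` on the generalised eigenspace of `ldv A` for `χ`,
and `ldv B f` vanishes at `1` for `f` in `I`. -/
def ST_RPL : Prop :=
  ∀ (K₀ C : Type) [Field K₀] [CharZero K₀] [Field C] [Algebra K₀ C] [IsAlgClosed C] (n : ℕ)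
    (A : Matrix (Fin n) (Fin n) K₀), ∃ μ : Fin n → C,
      ((∀ i, μ i = 0) → IsNilpotent A) ∧
      ∀ φ : C →+ C, ∃ B : Matrix (Fin n) (Fin n) C,
        (∀ X : Subgroup (Matrix.GeneralLinearGroup (Fin n) K₀), A ∈ LieZ X →
          ∀ f : MvPolynomial (Fin n × Fin n) K₀,
            (∀ x ∈ X, ev (x : Matrix (Fin n) (Fin n) K₀) f = 0) →
            ∑ i, ∑ j, B i j * algebraMap K₀ C
              (ev (1 : Matrix (Fin n) (Fin n) K₀) (MvPolynomial.pderiv (i, j) f)) = 0) ∧
        (A.map (algebraMap K₀ C) * B).trace = ∑ i, μ i * φ (μ i)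

/-- ENG: Engel's theorem and semisimplicity: the common kernel of `U` is stable under the group; its
stable complement `W'` is stable under `U`, and if it is not `0` then `U` has a common kernel
vector in it. -/
def ST_ENG : Prop :=
  ∀ (K : Type) [Field K] (n : ℕ) (U : Submodule K (Matrix (Fin n) (Fin n) K)) (G : Type) [Group G]
    (r : G →* Matrix (Fin n) (Fin n) K),
    (∀ A ∈ U, ∀ B ∈ U, A * B - B * A ∈ U) → (∀ A ∈ U, IsNilpotent A) →
    (∀ g, ∀ A ∈ U, r g * A * r g⁻¹ ∈ U) →
    (∀ W : Submodule K (Fin n → K), (∀ g, ∀ v ∈ W, (r g).mulVec v ∈ W) →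
      (∀ A ∈ U, ∀ v ∈ W, A.mulVec v ∈ W) ∧
      ∃ W', (∀ g, ∀ v ∈ W', (r g).mulVec v ∈ W') ∧ IsCompl W W') →
    U = ⊥

/-- STB: the Lie algebra of a group preserves the subspaces preserved by the group. -/
def ST_STB : Prop :=
  ∀ (K₀ : Type) [Field K₀] (n : ℕ) (X : Subgroup (Matrix.GeneralLinearGroup (Fin n) K₀))
    (W : Submodule K₀ (Fin n → K₀)),
    (∀ x ∈ X, ∀ v ∈ W, (x : Matrix (Fin n) (Fin n) K₀).mulVec v ∈ W) →
    ∀ A ∈ LieZ X, ∀ v ∈ W, A.mulVec v ∈ W

end HG
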