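import Pool.Agent.Helper6.HG.Main4
import Pool.Agent.Helper6.HG.Grp

/-!
# Mumford-Tate and `T^(2,2)`: the final theorem (up to the modules)
-/

set_option autoImplicit false

open NumberField MU MT HD

namespace HG

/-- Hodge classes which are Tate: one inclusion -/
theorem gl0_sub {F : Type} [Field F] [NumberField F] {S : Finset ℕ} {n w : ℕ} {h : Fin n → ℕ}
    (M : PMot F S n w h) (l : ℕ) [Fact l.Prime]
    (hT : ∀ (a b : ℕ) (t : Tensor n a b ℚ), M.IsHodge t → IsTate M l t)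
    (K : Type) [Field K] [Algebra ℚ_[l] K] : M.Gl0 l K ⊆ M.Gsigma K := by
  intro g hg a b t ht
  obtain ⟨H, hH, hfix⟩ := hT a b t ht
  refine st_TEN.1 ℚ_[l] n a b (M.ρ l '' H) t ?_ K g (hg H hH)
  rintro _ ⟨s, hs, rfl⟩
  exact hfix s hs

/-- the final theorem, up to the modules -/
theorem fin_of (tk : ST_TK) (kt : ST_KT) (cas2 : ST_CAS2) (bc : ST_BC) (hk : ST_HK)
    (rpl : ST_RPL) (eng : ST_ENG) (grp : ST_GRP) (F : Type) [Field F] [NumberField F]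
    (S : Finset ℕ) (n w : ℕ) (hw : 0 < w) (h : Fin n → ℕ) (M : PMot F S n w h) (l : ℕ)
    [Fact l.Prime] :
    ((∀ t : Tensor n 2 2 ℚ, M.IsHodge t → IsTate M l t) → NoCM M →
      (∀ (a b : ℕ) (t : Tensor n a b ℚ), M.IsHodge t → IsTate M l t) ∧
      ∀ (K : Type) [Field K] [Algebra ℚ_[l] K], M.Gl0 l K ⊆ M.Gsigma K) ∧
    ((∀ t : Tensor n 2 2 ℚ_[l], IsTateL M l t ↔ t ∈ hodgeSpan M ℚ_[l] 2 2) → Semi M l →
      der (glie M l) = der (spn ℚ_[l] (mlie M)) ∧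
      (NoCM M → (∀ (K : Type) [Field K] [Algebra ℚ_[l] K], M.Gl0 l K = M.Gsigma K) ∧
        ∀ (a b : ℕ) (t : Tensor n a b ℚ_[l]), IsTateL M l t ↔ t ∈ hodgeSpan M ℚ_[l] a b)) := by
  refine ⟨fun h22 hcm => ?_, fun h22 hss => ?_⟩
  · have h1 := st_G1 tk kt (st_ALG cas2) F S n w h M hw hcm l h22
    exact ⟨h1, fun K _ _ => gl0_sub M l h1 K⟩
  · obtain ⟨P, hP1, hP2, -, hP3, hP5⟩ := exists_proj_glie M l
      fun A hA hAB => glie_nondeg rpl eng M l hss A hA hAB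
    refine ⟨der_eq' tk kt cas2 M hw l h22 P hP1 hP2 hP5, fun hcm => ?_⟩
    obtain ⟨h1, h2⟩ := lie_eq tk kt bc hk cas2 M hw hcm l h22 P hP1 hP2 hP3 hP5
    exact ⟨fun K _ _ => grp F S n w h M hw l h1 K, h2⟩

end HG
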