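import Pool.Agent.Helper6.HG.Defs

/-!
# Tensors in `T^(2,2)` and endomorphisms of the space of matrices
-/

set_option autoImplicit false

open NumberField MU MT HD

namespace HG

section Op

variable {K : Type} [Field K] {n : ℕ}

/-- the endomorphism of the space of matrices defined by a tensor in `T^(2,2)`: `X ⊗ Y` acts by
`A ↦ X A Y` -/
def op (t : Matrix (Fin 2 → Fin n) (Fin 2 → Fin n) K) (A : Matrix (Fin n) (Fin n) K) :
    Matrix (Fin n) (Fin n) K :=
  fun p q => ∑ r, ∑ s, t ![p, s] ![r, q] * A r s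

theorem op_tpf (X Y A : Matrix (Fin n) (Fin n) K) : op (tpf ![X, Y]) A = X * A * Y := by
  ext p q
  rw [Matrix.mul_apply]
  simp only [op, tpf, Fin.prod_univ_two, Matrix.cons_val_zero, Matrix.cons_val_one,
    Matrix.mul_apply, Finset.sum_mul]
  rw [Finset.sum_comm]
  refine Finset.sum_congr rfl fun s _ => Finset.sum_congr rfl fun r _ => ?_
  ring

theorem op_zero (A : Matrix (Fin n) (Fin n) K) : op 0 A = 0 := by
  ext p q
  simp [op]

theorem op_add (t t' : Matrix (Fin 2 → Fin n) (Fin 2 → Fin n) K) (A : Matrix (Fin n) (Fin n) K) :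
    op (t + t') A = op t A + op t' A := by
  ext p q
  simp only [op, Matrix.add_apply, add_mul, Finset.sum_add_distrib]

theorem op_smul (c : K) (t : Matrix (Fin 2 → Fin n) (Fin 2 → Fin n) K)
    (A : Matrix (Fin n) (Fin n) K) : op (c • t) A = c • op t A := by
  ext p q
  simp only [op, Matrix.smul_apply, smul_eq_mul, Finset.mul_sum, mul_assoc]

theorem op_add' (t : Matrix (Fin 2 → Fin n) (Fin 2 → Fin n) K) (A B : Matrix (Fin n) (Fin n) K) :
    op t (A + B) = op t A + op t B := by
  ext p q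
  simp only [op, Matrix.add_apply, mul_add, Finset.sum_add_distrib]

theorem op_smul' (c : K) (t : Matrix (Fin 2 → Fin n) (Fin 2 → Fin n) K)
    (A : Matrix (Fin n) (Fin n) K) : op t (c • A) = c • op t A := by
  ext p q
  simp only [op, Matrix.smul_apply, smul_eq_mul, Finset.mul_sum]
  refine Finset.sum_congr rfl fun s _ => Finset.sum_congr rfl fun r _ => ?_
  ring

theorem op_sub' (t : Matrix (Fin 2 → Fin n) (Fin 2 → Fin n) K) (A B : Matrix (Fin n) (Fin n) K) :
    op t (A - B) = op t A - op t B := by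
  rw [sub_eq_add_neg, op_add', ← neg_one_smul K B, op_smul', neg_one_smul, ← sub_eq_add_neg]

theorem vec_two {α : Type} (i : Fin 2 → α) : ![i 0, i 1] = i := by
  funext s
  fin_cases s <;> rfl

theorem op_single (t : Matrix (Fin 2 → Fin n) (Fin 2 → Fin n) K) (i j : Fin 2 → Fin n) :
    op t (Matrix.single (j 0) (i 1) 1) (i 0) (j 1) = t i j := by
  unfold op
  rw [Finset.sum_eq_single (j 0), Finset.sum_eq_single (i 1)]
  · rw [Matrix.single_apply_same, mul_one, vec_two, vec_two]
  · intro s _ hs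
    rw [Matrix.single_apply_of_ne _ _ _ _ _ (by tauto), mul_zero]
  · simp
  · intro r _ hr
    refine Finset.sum_eq_zero fun s _ => ?_
    rw [Matrix.single_apply_of_ne _ _ _ _ _ (by tauto), mul_zero]
  · simp

theorem op_injective {t t' : Matrix (Fin 2 → Fin n) (Fin 2 → Fin n) K}
    (h : ∀ A, op t A = op t' A) : t = t' := by
  ext i j
  rw [← op_single t, ← op_single t', h]

/-- the tensor defined by an endomorphism of the space of matrices -/
def ten (P : Matrix (Fin n) (Fin n) K →ₗ[K] Matrix (Fin n) (Fin n) K) : Tensor n 2 2 K :=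
  fun i j => P (Matrix.single (j 0) (i 1) 1) (i 0) (j 1)

theorem op_ten (P : Matrix (Fin n) (Fin n) K →ₗ[K] Matrix (Fin n) (Fin n) K)
    (A : Matrix (Fin n) (Fin n) K) : op (Matrix.of (ten P)) A = P A := by
  have h1 : ∀ r s, op (Matrix.of (ten P)) (Matrix.single r s 1) = P (Matrix.single r s 1) := by
    intro r s
    ext p q
    have h2 := op_single (Matrix.of (ten P)) ![p, s] ![r, q]
    simp only [Matrix.cons_val_zero, Matrix.cons_val_one] at h2
    rw [h2]
    simp [ten]
  have h3 : A = ∑ i, ∑ j, A i j • Matrix.single i j (1 : K) := by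
    conv_lhs => rw [Matrix.matrix_eq_sum_single A]
    refine Finset.sum_congr rfl fun i _ => Finset.sum_congr rfl fun j _ => ?_
    rw [Matrix.smul_single, smul_eq_mul, mul_one]
  let Q : Matrix (Fin n) (Fin n) K →ₗ[K] Matrix (Fin n) (Fin n) K :=
    { toFun := op (Matrix.of (ten P))
      map_add' := op_add' _
      map_smul' := fun c A => op_smul' c _ A }
  have h4 : Q A = P A := by
    rw [h3, map_sum, map_sum]
    refine Finset.sum_congr rfl fun i _ => ?_
    rw [map_sum, map_sum]
    refine Finset.sum_congr rfl fun j _ => ?_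
    rw [map_smul, map_smul]
    congr 1
    exact h1 i j
  exact h4

/-- induction for `T^(2,2)` -/
theorem ind_two (p : Matrix (Fin 2 → Fin n) (Fin 2 → Fin n) K → Prop) (h0 : p 0)
    (hadd : ∀ t t', p t → p t' → p (t + t')) (hsmul : ∀ (c : K) t, p t → p (c • t))
    (htpf : ∀ X Y, p (tpf ![X, Y])) (t : Matrix (Fin 2 → Fin n) (Fin 2 → Fin n) K) : p t := by
  have h1 : ∀ i j : Fin 2 → Fin n, Matrix.single i j (1 : K) =
      tpf ![Matrix.single (i 0) (j 0) 1, Matrix.single (i 1) (j 1) 1] := by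
    intro i j
    apply op_injective
    intro A
    rw [op_tpf]
    ext p q
    rw [op]
    simp only [Matrix.single_apply, ite_mul, one_mul, zero_mul]
    rw [Matrix.mul_apply]
    simp only [Matrix.mul_apply, Matrix.single_apply, ite_mul, one_mul, zero_mul, mul_ite, mul_one,
      mul_zero]
    have e1 : ∀ r s, (i = ![p, s] ∧ j = ![r, q]) ↔ ((i 0 = p ∧ j 0 = r) ∧ (i 1 = s ∧ j 1 = q)) := by
      intro r s
      constructor
      · rintro ⟨rfl, rfl⟩
        exact ⟨⟨rfl, rfl⟩, rfl, rfl⟩
      · rintro ⟨⟨rfl, rfl⟩, rfl, rfl⟩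
        exact ⟨(vec_two i).symm, (vec_two j).symm⟩
    rw [Finset.sum_comm]
    refine Finset.sum_congr rfl fun s _ => ?_
    by_cases hs : i 1 = s ∧ j 1 = q
    · rw [if_pos hs]
      refine Finset.sum_congr rfl fun r _ => ?_
      by_cases hr : i 0 = p ∧ j 0 = r
      · rw [if_pos hr, if_pos ((e1 r s).mpr ⟨hr, hs⟩)]
      · rw [if_neg hr, if_neg fun h => hr ((e1 r s).mp h).1]
    · rw [if_neg hs]
      exact Finset.sum_eq_zero fun r _ => if_neg fun h => hs ((e1 r s).mp h).2
  rw [Matrix.matrix_eq_sum_single t]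
  refine Finset.sum_induction _ p hadd h0 fun i _ => Finset.sum_induction _ p hadd h0 fun j _ => ?_
  have h2 : Matrix.single i j (t i j) = t i j • Matrix.single i j (1 : K) := by
    rw [Matrix.smul_single, smul_eq_mul, mul_one]
  rw [h2, h1]
  exact hsmul _ _ (htpf _ _)

theorem tpf_two_mul (X Y Z W : Matrix (Fin n) (Fin n) K) :
    tpf ![X, Y] * tpf ![Z, W] = tpf ![X * Z, Y * W] := by
  rw [tpf_mul]
  congr 1
  funext s
  fin_cases s <;> rfl

theorem tp_two (g : Matrix (Fin n) (Fin n) K) : MT.tp 2 g = tpf ![g, g] := by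
  rw [tp_eq]
  congr 1
  funext s
  fin_cases s <;> rfl

theorem op_tpf_mul (X Y : Matrix (Fin n) (Fin n) K)
    (t : Matrix (Fin 2 → Fin n) (Fin 2 → Fin n) K) (A : Matrix (Fin n) (Fin n) K) :
    op (tpf ![X, Y] * t) A = X * op t (A * Y) := by
  induction t using ind_two with
  | h0 => rw [Matrix.mul_zero, op_zero, op_zero, Matrix.mul_zero]
  | hadd t t' h h' => rw [Matrix.mul_add, op_add, op_add, h, h', Matrix.mul_add]
  | hsmul c t h => rw [Matrix.mul_smul, op_smul, op_smul, h, Matrix.mul_smul]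
  | htpf Z W =>
    rw [tpf_two_mul, op_tpf, op_tpf]
    simp only [Matrix.mul_assoc]

theorem op_mul_tpf (X Y : Matrix (Fin n) (Fin n) K)
    (t : Matrix (Fin 2 → Fin n) (Fin 2 → Fin n) K) (A : Matrix (Fin n) (Fin n) K) :
    op (t * tpf ![X, Y]) A = op t (X * A) * Y := by
  induction t using ind_two with
  | h0 => rw [Matrix.zero_mul, op_zero, op_zero, Matrix.zero_mul]
  | hadd t t' h h' => rw [Matrix.add_mul, op_add, op_add, h, h', Matrix.add_mul]
  | hsmul c t h => rw [Matrix.smul_mul, op_smul, op_smul, h, Matrix.smul_mul]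
  | htpf Z W =>
    rw [tpf_two_mul, op_tpf, op_tpf]
    simp only [Matrix.mul_assoc]

/-- a tensor is fixed by `g` iff the endomorphism commutes with the conjugation by `g` -/
theorem act_op (g : Matrix.GeneralLinearGroup (Fin n) K) (t : Tensor n 2 2 K) :
    act g t = t ↔ ∀ A, (g : Matrix (Fin n) (Fin n) K) * op (Matrix.of t) A *
      ((g⁻¹ : Matrix.GeneralLinearGroup (Fin n) K) : Matrix (Fin n) (Fin n) K) =
        op (Matrix.of t) ((g : Matrix (Fin n) (Fin n) K) * A *
      ((g⁻¹ : Matrix.GeneralLinearGroup (Fin n) K) : Matrix (Fin n) (Fin n) K)) := by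
  set x : Matrix (Fin n) (Fin n) K := (g : Matrix (Fin n) (Fin n) K) with hx
  set y : Matrix (Fin n) (Fin n) K :=
    ((g⁻¹ : Matrix.GeneralLinearGroup (Fin n) K) : Matrix (Fin n) (Fin n) K) with hy
  have hxy : x * y = 1 := Units.mul_inv g
  have hyx : y * x = 1 := Units.inv_mul g
  rw [act_fix_iff, tp_two]
  constructor
  · intro h A
    have h1 : op (tpf ![x, x] * Matrix.of t) (A * y) = op (Matrix.of t * tpf ![x, x]) (A * y) := by
      rw [h]
    rw [op_tpf_mul, op_mul_tpf, Matrix.mul_assoc A, hyx, Matrix.mul_one] at h1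
    rw [h1, Matrix.mul_assoc (op _ _), hxy, Matrix.mul_one, Matrix.mul_assoc]
  · intro h
    apply op_injective
    intro A
    have h1 := h (A * x)
    rw [op_tpf_mul, op_mul_tpf]
    have h2 : x * (A * x) * y = x * A := by
      rw [Matrix.mul_assoc, Matrix.mul_assoc A, hxy, Matrix.mul_one]
    rw [h2] at h1
    rw [← h1, Matrix.mul_assoc (x * _), hyx, Matrix.mul_one]

/-- a tensor is killed by `x` iff the endomorphism commutes with the bracket with `x` -/
theorem kill_op (x : Matrix (Fin n) (Fin n) K) (t : Tensor n 2 2 K) :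
    Kill x t ↔ ∀ A, x * op (Matrix.of t) A - op (Matrix.of t) A * x =
      op (Matrix.of t) (x * A - A * x) := by
  unfold Kill
  rw [dtp_two]
  constructor
  · intro h A
    have h1 : op ((tpf ![x, 1] + tpf ![1, x]) * Matrix.of t) A =
        op (Matrix.of t * (tpf ![x, 1] + tpf ![1, x])) A := by rw [h]
    rw [Matrix.add_mul, Matrix.mul_add, op_add, op_add, op_tpf_mul, op_tpf_mul, op_mul_tpf,
      op_mul_tpf, Matrix.mul_one, Matrix.one_mul, Matrix.one_mul, Matrix.mul_one] at h1
    rw [op_sub', sub_eq_sub_iff_add_eq_add, h1]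
  · intro h
    apply op_injective
    intro A
    have h1 := h A
    rw [op_sub', sub_eq_sub_iff_add_eq_add] at h1
    rw [Matrix.add_mul, Matrix.mul_add, op_add, op_add, op_tpf_mul, op_tpf_mul, op_mul_tpf,
      op_mul_tpf, Matrix.mul_one, Matrix.one_mul, Matrix.one_mul, Matrix.mul_one, h1]

end Op

end HG
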