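import Pool.Agent.Helper6.HG.Alg
import Pool.Agent.Helper6.HG.Op
import Pool.Agent.Helper40.MT.Main2A
import Pool.Agent.Helper3.MT.ZARS
import Pool.Agent.Helper40.MT.All2

/-!
# Mumford-Tate and `T^(2,2)`: the two theorems (up to the modules)
-/

set_option autoImplicit false

open NumberField MU MT HD

namespace HG

section Mot

variable {F : Type} [Field F] [NumberField F] {S : Finset ℕ} {n w : ℕ} {h : Fin n → ℕ}

theorem base_eq {C : Type} [Field C] [Algebra ℚ C] {a b : ℕ} (t : Tensor n a b ℚ) :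
    (fun i j => algebraMap ℚ C (t i j) : Tensor n a b C) = t.base C := by
  funext i j
  simp [Tensor.base]

/-- the Lie algebra kills the Hodge classes -/
theorem spn_kill (M : PMot F S n w h) (C : Type) [Field C] [Algebra ℚ C]
    (X : Matrix (Fin n) (Fin n) C) (hX : X ∈ spn C (mlie M)) (a b : ℕ) (t : Tensor n a b ℚ)
    (ht : M.IsHodge t) : Kill X (t.base C) := by
  unfold spn at hX
  induction hX using Submodule.span_induction with
  | mem x hx =>
    obtain ⟨A, hA, rfl⟩ := hx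
    have h1 := (hA a b t ht).map (algebraMap ℚ C)
    rw [base_eq] at h1
    exact h1
  | zero => exact kill_zero _
  | add x y _ _ hx hy => exact hx.add hy
  | smul c x _ hx => exact hx.smul c

theorem tadd_kill {R : Type} [CommRing R] {a b : ℕ} {A : Matrix (Fin n) (Fin n) R}
    {t t' : Tensor n a b R} (ht : Kill A t) (ht' : Kill A t') : Kill A (t + t') := by
  unfold Kill at *
  have h1 : (Matrix.of (t + t') : Matrix (Fin a → Fin n) (Fin b → Fin n) R) =
      Matrix.of t + Matrix.of t' := rfl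
  rw [h1, Matrix.mul_add, Matrix.add_mul, ht, ht']

theorem tsmul_kill {R : Type} [CommRing R] {a b : ℕ} {A : Matrix (Fin n) (Fin n) R}
    {t : Tensor n a b R} (c : R) (ht : Kill A t) : Kill A (c • t) := by
  unfold Kill at *
  have h1 : (Matrix.of (c • t) : Matrix (Fin a → Fin n) (Fin b → Fin n) R) =
      c • Matrix.of t := rfl
  rw [h1, Matrix.mul_smul, Matrix.smul_mul, ht]

/-- the Lie algebra kills the span of the Hodge classes -/
theorem spn_kill_span (M : PMot F S n w h) (C : Type) [Field C] [Algebra ℚ C]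
    (X : Matrix (Fin n) (Fin n) C) (hX : X ∈ spn C (mlie M)) (a b : ℕ) (t : Tensor n a b C)
    (ht : t ∈ hodgeSpan M C a b) : Kill X t := by
  unfold hodgeSpan at ht
  induction ht using Submodule.span_induction with
  | mem x hx =>
    obtain ⟨t₀, ht₀, rfl⟩ := hx
    exact spn_kill M C X hX a b t₀ ht₀
  | zero => exact kill_zero_tensor _
  | add x y _ _ hx hy => exact tadd_kill hx hy
  | smul c x _ hx => exact tsmul_kill c hx

/-- Hodge classes which are Tate in `T^(2,2)`: the monodromy Lie algebra is in the Lie algebra of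
the Mumford-Tate group. -/
theorem glie_le (tk : ST_TK) (alg : ST_ALG) (M : PMot F S n w h) (hw : 0 < w) (hcm : NoCM M)
    (l : ℕ) [Fact l.Prime] (h22 : ∀ t : Tensor n 2 2 ℚ, M.IsHodge t → IsTate M l t) :
    glie M l ≤ spn ℚ_[l] (mlie M) := by
  intro A hA
  exact alg F S n w h M hw hcm ℚ_[l] A fun t ht =>
    tk F S n w h M l 2 2 (t.base ℚ_[l]) (h22 t ht) A hA

/-- G1 -/
theorem st_G1 (tk : ST_TK) (kt : ST_KT) (alg : ST_ALG) : ST_G1 := by
  intro F _ _ S n w h M hw hcm l _ h22 a b t ht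
  exact kt F S n w h M l a b (t.base ℚ_[l]) fun A hA =>
    spn_kill M ℚ_[l] A (glie_le tk alg M hw hcm l h22 hA) a b t ht

theorem lieZ_mono {K₀ : Type} [Field K₀] {n : ℕ}
    {X Y : Subgroup (Matrix.GeneralLinearGroup (Fin n) K₀)} (h : X ≤ Y) : LieZ X ≤ LieZ Y :=
  fun _ hA f hf => hA f fun x hx => hf x (h hx)

theorem mem_glie (M : PMot F S n w h) (l : ℕ) [Fact l.Prime] (A : Matrix (Fin n) (Fin n) ℚ_[l]) :
    A ∈ glie M l ↔ ∀ H : Subgroup (Gal F), IsOpen (H : Set (Gal F)) →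
      A ∈ LieZ (H.map (M.ρ l)) := by
  unfold glie
  rw [Submodule.mem_iInf]
  refine forall_congr' fun H => ?_
  rw [Submodule.mem_iInf]

/-- the monodromy Lie algebra is stable under the Galois group -/
theorem glie_conj (M : PMot F S n w h) (l : ℕ) [Fact l.Prime] (g : Gal F)
    (A : Matrix (Fin n) (Fin n) ℚ_[l]) (hA : A ∈ glie M l) :
    mat (M.ρ l) g * A * mat (M.ρ l) g⁻¹ ∈ glie M l := by
  rw [mem_glie] at hA ⊢
  intro H hH
  obtain ⟨H₁, hle, hnor, hop, -⟩ := exists_core H hH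
  refine lieZ_mono (Subgroup.map_mono hle) ?_
  have h1 := (st_ZAR ℚ_[l] n (H₁.map (M.ρ l))).2.1 (M.ρ l g) (by
    rintro _ ⟨s, hs, rfl⟩
    exact ⟨g * s * g⁻¹, hnor.conj_mem s hs g, by simp⟩) A (hA H₁ hop)
  have h2 : mat (M.ρ l) g⁻¹ = (((M.ρ l g)⁻¹ : Matrix.GeneralLinearGroup (Fin n) ℚ_[l]) :
      Matrix (Fin n) (Fin n) ℚ_[l]) := by
    show ((M.ρ l g⁻¹ : Matrix.GeneralLinearGroup (Fin n) ℚ_[l]) :
      Matrix (Fin n) (Fin n) ℚ_[l]) = _
    rw [map_inv]
  rw [h2]
  exact h1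

/-- a matrix invariant under the Galois group gives a Tate class -/
theorem two_tate (M : PMot F S n w h) (l : ℕ) [Fact l.Prime] (A : Matrix (Fin n) (Fin n) ℚ_[l])
    (hA : ∀ g : Gal F, mat (M.ρ l) g * A * mat (M.ρ l) g⁻¹ = A) : IsTateL M l (two A) := by
  refine ⟨⊤, isOpen_univ, fun g _ => ?_⟩
  rw [act_two]
  have h1 := hA g
  have h2 : mat (M.ρ l) g⁻¹ * mat (M.ρ l) g = 1 := by
    rw [← map_mul, inv_mul_cancel, map_one]
  have h3 : mat (M.ρ l) g * A = A * mat (M.ρ l) g := by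
    calc mat (M.ρ l) g * A = mat (M.ρ l) g * A * (mat (M.ρ l) g⁻¹ * mat (M.ρ l) g) := by
          rw [h2, Matrix.mul_one]
      _ = (mat (M.ρ l) g * A * mat (M.ρ l) g⁻¹) * mat (M.ρ l) g := by
          simp only [Matrix.mul_assoc]
      _ = _ := by rw [h1]
  exact h3

/-- a projector which commutes with the Galois group is a Tate class -/
theorem ten_tate (M : PMot F S n w h) (l : ℕ) [Fact l.Prime]
    (P : Matrix (Fin n) (Fin n) ℚ_[l] →ₗ[ℚ_[l]] Matrix (Fin n) (Fin n) ℚ_[l])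
    (hP : ∀ (g : Gal F) A, P (mat (M.ρ l) g * A * mat (M.ρ l) g⁻¹) =
      mat (M.ρ l) g * P A * mat (M.ρ l) g⁻¹) : IsTateL M l (ten P) := by
  refine ⟨⊤, isOpen_univ, fun g _ => ?_⟩
  rw [act_op]
  intro A
  have h2 : mat (M.ρ l) g⁻¹ = (((M.ρ l g)⁻¹ : Matrix.GeneralLinearGroup (Fin n) ℚ_[l]) :
      Matrix (Fin n) (Fin n) ℚ_[l]) := by
    show ((M.ρ l g⁻¹ : Matrix.GeneralLinearGroup (Fin n) ℚ_[l]) :
      Matrix (Fin n) (Fin n) ℚ_[l]) = _
    rw [map_inv]
  have h3 := hP g A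
  rw [h2] at h3
  rw [op_ten, op_ten]
  exact h3.symm

/-- the projector onto a stable subspace with a stable complement -/
theorem exists_proj {K G : Type} [Field K] {n : ℕ} (c : G → Matrix (Fin n) (Fin n) K →ₗ[K]
      Matrix (Fin n) (Fin n) K) (W W' : Submodule K (Matrix (Fin n) (Fin n) K))
    (hW : ∀ g, ∀ A ∈ W, c g A ∈ W) (hW' : ∀ g, ∀ A ∈ W', c g A ∈ W') (hc : IsCompl W W') :
    ∃ P : Matrix (Fin n) (Fin n) K →ₗ[K] Matrix (Fin n) (Fin n) K,
      (∀ A, P A ∈ W) ∧ (∀ A ∈ W, P A = A) ∧ (∀ A, A - P A ∈ W') ∧ (∀ A ∈ W', P A = 0) ∧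
        ∀ g A, P (c g A) = c g (P A) := by
  have hex : ∀ A, ∃ x ∈ W, ∃ y ∈ W', x + y = A := by
    intro A
    have h1 : A ∈ W ⊔ W' := by
      rw [hc.sup_eq_top]
      trivial
    exact Submodule.mem_sup.mp h1
  let P := W.subtype ∘ₗ Submodule.linearProjOfIsCompl W W' hc
  have h1 : ∀ A ∈ W, P A = A := by
    intro A hA
    show ((Submodule.linearProjOfIsCompl W W' hc) A : Matrix (Fin n) (Fin n) K) = A
    have := Submodule.linearProjOfIsCompl_apply_left hc ⟨A, hA⟩
    exact congrArg Subtype.val this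
  have h2 : ∀ A ∈ W', P A = 0 := by
    intro A hA
    show ((Submodule.linearProjOfIsCompl W W' hc) A : Matrix (Fin n) (Fin n) K) = 0
    have := Submodule.linearProjOfIsCompl_apply_right hc ⟨A, hA⟩
    exact congrArg Subtype.val this
  refine ⟨P, fun A => ((Submodule.linearProjOfIsCompl W W' hc) A).2, h1, ?_, h2, ?_⟩
  · intro A
    obtain ⟨x, hx, y, hy, rfl⟩ := hex A
    rw [map_add, h1 x hx, h2 y hy, add_zero, add_sub_cancel_left]
    exact hy
  · intro g A
    obtain ⟨x, hx, y, hy, rfl⟩ := hex A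
    rw [map_add, map_add, map_add, h1 x hx, h2 y hy, h1 _ (hW g x hx), h2 _ (hW' g y hy),
      add_zero, add_zero]

/-- the conjugation by the Galois group -/
noncomputable def cj (M : PMot F S n w h) (l : ℕ) [Fact l.Prime] (g : Gal F) :
    Matrix (Fin n) (Fin n) ℚ_[l] →ₗ[ℚ_[l]] Matrix (Fin n) (Fin n) ℚ_[l] where
  toFun A := mat (M.ρ l) g * A * mat (M.ρ l) g⁻¹
  map_add' A B := by rw [Matrix.mul_add, Matrix.add_mul]
  map_smul' c A := by rw [Matrix.mul_smul, Matrix.smul_mul, RingHom.id_apply]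

theorem cj_apply (M : PMot F S n w h) (l : ℕ) [Fact l.Prime] (g : Gal F)
    (A : Matrix (Fin n) (Fin n) ℚ_[l]) : cj M l g A = mat (M.ρ l) g * A * mat (M.ρ l) g⁻¹ := rfl

/-- the Galois group preserves the multipliers -/
theorem cj_sim (M : PMot F S n w h) (l : ℕ) [Fact l.Prime] (g : Gal F)
    (A : Matrix (Fin n) (Fin n) ℚ_[l]) (c : ℚ_[l])
    (hA : A.transpose * M.ψ.map (algebraMap ℚ ℚ_[l]) + M.ψ.map (algebraMap ℚ ℚ_[l]) * A =
      c • M.ψ.map (algebraMap ℚ ℚ_[l])) :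
    (cj M l g A).transpose * M.ψ.map (algebraMap ℚ ℚ_[l]) +
      M.ψ.map (algebraMap ℚ ℚ_[l]) * cj M l g A = c • M.ψ.map (algebraMap ℚ ℚ_[l]) := by
  set ψ' := M.ψ.map (algebraMap ℚ ℚ_[l]) with hψ'
  set X := mat (M.ρ l) g with hX
  set Y := mat (M.ρ l) g⁻¹ with hY
  have hXY : X * Y = 1 := by rw [hX, hY, ← map_mul, mul_inv_cancel, map_one]
  have hYX : Y * X = 1 := by rw [hX, hY, ← map_mul, inv_mul_cancel, map_one]
  set u : ℚ_[l] := (((cyc l F g : ℤ_[l]ˣ) : ℤ_[l]) : ℚ_[l]) with hu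
  have hgal := M.ψ_gal l g
  rw [bas_eq_map] at hgal
  have hgal' : u ^ w • (X.transpose * ψ' * X) = ψ' := hgal
  have hu0 : u ≠ 0 := by
    intro h0
    have h1 : ((cyc l F g : ℤ_[l]ˣ) : ℤ_[l]) = 0 := Subtype.ext h0
    exact (cyc l F g : ℤ_[l]ˣ).ne_zero h1
  have hv0 : u ^ w ≠ 0 := pow_ne_zero _ hu0
  -- `Yᵀ ψ Y = u^w ψ`
  have hYY : Y.transpose * ψ' * Y = u ^ w • ψ' := by
    calc Y.transpose * ψ' * Y = Y.transpose * (u ^ w • (X.transpose * ψ' * X)) * Y := by
          rw [hgal']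
      _ = u ^ w • ((X * Y).transpose * ψ' * (X * Y)) := by
          rw [Matrix.mul_smul, Matrix.smul_mul, Matrix.transpose_mul]
          simp only [Matrix.mul_assoc]
      _ = _ := by rw [hXY, Matrix.transpose_one, Matrix.one_mul, Matrix.mul_one]
  -- `ψ X = u^-w Yᵀ ψ`
  have e1 : ψ' * X = (u ^ w)⁻¹ • (Y.transpose * ψ') := by
    have : Y.transpose * ψ' = u ^ w • (ψ' * X) := by
      calc Y.transpose * ψ' = Y.transpose * ψ' * (Y * X) := by rw [hYX, Matrix.mul_one]
        _ = (Y.transpose * ψ' * Y) * X := by simp only [Matrix.mul_assoc]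
        _ = _ := by rw [hYY, Matrix.smul_mul]
    rw [this, smul_smul, inv_mul_cancel₀ hv0, one_smul]
  have e2 : X.transpose * ψ' = (u ^ w)⁻¹ • (ψ' * Y) := by
    have : ψ' * Y = u ^ w • (X.transpose * ψ') := by
      calc ψ' * Y = (Y * X).transpose * ψ' * Y := by
            rw [hYX, Matrix.transpose_one, Matrix.one_mul]
        _ = X.transpose * (Y.transpose * ψ' * Y) := by
            rw [Matrix.transpose_mul]
            simp only [Matrix.mul_assoc]
        _ = _ := by rw [hYY, Matrix.mul_smul]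
    rw [this, smul_smul, inv_mul_cancel₀ hv0, one_smul]
  rw [cj_apply]
  calc (X * A * Y).transpose * ψ' + ψ' * (X * A * Y)
      = Y.transpose * (A.transpose * (X.transpose * ψ')) + (ψ' * X) * (A * Y) := by
        rw [Matrix.transpose_mul, Matrix.transpose_mul]
        simp only [Matrix.mul_assoc]
    _ = (u ^ w)⁻¹ • (Y.transpose * (A.transpose * ψ' + ψ' * A) * Y) := by
        rw [e1, e2, Matrix.mul_smul, Matrix.mul_smul, Matrix.smul_mul, ← smul_add]
        congr 1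
        rw [Matrix.mul_add, Matrix.add_mul]
        simp only [Matrix.mul_assoc]
    _ = c • ψ' := by
        rw [hA, Matrix.mul_smul, Matrix.smul_mul, hYY, smul_smul, smul_smul]
        congr 1
        field_simp

end Mot

end HG
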