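import Pool.Agent.Helper6.HG.Main2

/-!
# Mumford-Tate and `T^(2,2)`: the derived algebras (up to the modules)
-/

set_option autoImplicit false

open NumberField MU MT HD

namespace HG

/-- the span of the brackets -/
def der {K : Type} [Field K] {n : ℕ} (U : Submodule K (Matrix (Fin n) (Fin n) K)) :
    Submodule K (Matrix (Fin n) (Fin n) K) :=
  Submodule.span K {X | ∃ A ∈ U, ∃ B ∈ U, X = A * B - B * A}

section Mot

variable {F : Type} [Field F] [NumberField F] {S : Finset ℕ} {n w : ℕ} {h : Fin n → ℕ}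

/-- G3: without any condition on the motive the derived algebras agree. -/
theorem der_eq (tk : ST_TK) (kt : ST_KT) (cas2 : ST_CAS2) (M : PMot F S n w h) (hw : 0 < w) (l : ℕ)
    [Fact l.Prime]
    (h22 : ∀ t : Tensor n 2 2 ℚ_[l], IsTateL M l t ↔ t ∈ hodgeSpan M ℚ_[l] 2 2)
    (hss : ∀ W : Submodule ℚ_[l] (Matrix (Fin n) (Fin n) ℚ_[l]), (∀ g : Gal F, ∀ A ∈ W,
      mat (M.ρ l) g * A * mat (M.ρ l) g⁻¹ ∈ W) → ∃ W', (∀ g : Gal F, ∀ A ∈ W',
      mat (M.ρ l) g * A * mat (M.ρ l) g⁻¹ ∈ W') ∧ IsCompl W W') :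
    der (glie M l) = der (spn ℚ_[l] (mlie M)) := by
  have hht : ∀ t : Tensor n 2 2 ℚ, M.IsHodge t → IsTateL M l (t.base ℚ_[l]) := fun t ht =>
    (h22 (t.base ℚ_[l])).mpr (hodge_mem M ℚ_[l] t ht)
  have hg0 : ∀ x ∈ glie M l, ∃ y ∈ spn ℚ_[l] (mlie M), (∀ A, A ∈ mlie M ∨ HodgeEnd M A →
      (x - y) * A.map (algebraMap ℚ ℚ_[l]) = A.map (algebraMap ℚ ℚ_[l]) * (x - y)) := by
    intro x hx
    obtain ⟨y, hy, h1, -⟩ := st_ALG0 cas2 M hw ℚ_[l] x fun t ht =>
      tk F S n w h M l 2 2 (t.base ℚ_[l]) (hht t ht) x hx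
    exact ⟨y, hy, h1⟩
  -- the monodromy Lie algebra commutes with the Hodge endomorphisms
  have hge : ∀ x ∈ glie M l, ∀ e, HodgeEnd M e →
      x * e.map (algebraMap ℚ ℚ_[l]) = e.map (algebraMap ℚ ℚ_[l]) * x := by
    intro x hx e he
    have h1 := tk F S n w h M l 2 2 _ (hht _ (hodge_two M e he)) x hx
    rw [two_base, map_cast_eq, kill_two] at h1
    exact h1
  have htk : ∀ t : Tensor n 2 2 ℚ_[l], IsTateL M l t → ∀ X ∈ spn ℚ_[l] (mlie M), Kill X t :=
    fun t ht X hX => spn_kill_span M ℚ_[l] X hX 2 2 t ((h22 t).mp ht)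
  have hstab : ∀ g : Gal F, ∀ A ∈ glie M l, cj M l g A ∈ glie M l :=
    fun g A hA => glie_conj M l g A hA
  obtain ⟨W', hW', hcompl⟩ := hss (glie M l) hstab
  obtain ⟨P, hP1, hP2, hP3, hP4, hP5⟩ := exists_proj (cj M l) (glie M l) W' hstab hW' hcompl
  have hPT : IsTateL M l (ten P) := ten_tate M l P hP5
  have hbr : ∀ X ∈ spn ℚ_[l] (mlie M), ∀ A, X * P A - P A * X = P (X * A - A * X) := by
    intro X hX A
    have h1 := (kill_op X (ten P)).mp (htk _ hPT X hX) A
    rw [op_ten, op_ten] at h1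
    exact h1
  have hbg : ∀ X ∈ glie M l, ∀ A, X * P A - P A * X = P (X * A - A * X) := by
    intro X hX A
    have h1 := (kill_op X (ten P)).mp (tk F S n w h M l 2 2 _ hPT X hX) A
    rw [op_ten, op_ten] at h1
    exact h1
  have hpp : ∀ A, P (P A) = P A := fun A => hP2 _ (hP1 A)
  -- the elements of the Lie algebra, up to central elements
  have hh0 : ∀ y ∈ spn ℚ_[l] (mlie M), ∀ A, A ∈ mlie M ∨ HodgeEnd M A →
      (y - P y) * A.map (algebraMap ℚ ℚ_[l]) = A.map (algebraMap ℚ ℚ_[l]) * (y - P y) := by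
    intro y hy
    have hPr : P (y - P y) = 0 := hP4 _ (hP3 y)
    have hcomm : ∀ A ∈ glie M l, A * (y - P y) = (y - P y) * A := by
      intro A hA
      have h1 := hbg A hA (y - P y)
      rw [hPr, Matrix.mul_zero, Matrix.zero_mul, sub_zero] at h1
      -- `[A, y] = - P [y, A]` is in `glie`
      have h2 : P (A * (y - P y) - (y - P y) * A) = A * (y - P y) - (y - P y) * A := by
        have e1 : A * (y - P y) - (y - P y) * A = (A * y - y * A) - (A * P y - P y * A) := by
          rw [Matrix.mul_sub, Matrix.sub_mul]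
          abel
        have e2 := hbg A hA y
        have e3 := hbr y hy A
        rw [hP2 A hA] at e3
        have e4 : P (A * y - y * A) = A * y - y * A := by
          have e5 : A * y - y * A = -(y * A - A * y) := by abel
          rw [e5, map_neg, ← e3]
        rw [e1, map_sub, e4, e2, hpp]
      rw [← sub_eq_zero, ← h2, ← h1]
    have hrT : IsTateL M l (two (y - P y)) := kt F S n w h M l 2 2 (two (y - P y)) fun A hA =>
      (kill_two A _).mpr (hcomm A hA)
    rintro A (hA | hA)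
    · exact ((kill_two _ _).mp (htk _ hrT _ (mem_spn (C := ℚ_[l]) (mlie M) hA))).symm
    · rw [Matrix.sub_mul, Matrix.mul_sub, mlie_commute M ℚ_[l] A hA y hy, hge _ (hP1 y) A hA]
  have hcommr : ∀ y ∈ spn ℚ_[l] (mlie M), ∀ A ∈ glie M l, A * (y - P y) = (y - P y) * A := by
    intro y hy A hA
    obtain ⟨x, hx, h1⟩ := hg0 A hA
    have h2 := central_comm M hw ℚ_[l] _ _ h1 (hh0 y hy)
    have h3 := central_spn M ℚ_[l] _ x (hh0 y hy) hx
    have h4 : A = (A - x) + x := by abel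
    rw [h4, Matrix.add_mul, Matrix.mul_add, h2, h3]
  apply le_antisymm
  · refine Submodule.span_le.mpr ?_
    rintro _ ⟨A, hA, B, hB, rfl⟩
    obtain ⟨x, hx, h1⟩ := hg0 A hA
    obtain ⟨y, hy, h2⟩ := hg0 B hB
    have h3 := central_comm M hw ℚ_[l] _ _ h1 h2
    have h4 := central_spn M ℚ_[l] _ y h1 hy
    have h5 := central_spn M ℚ_[l] _ x h2 hx
    refine Submodule.subset_span ⟨x, hx, y, hy, ?_⟩
    have h6 : A * B - B * A - (x * y - y * x) = ((A - x) * (B - y) - (B - y) * (A - x)) +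
        ((A - x) * y - y * (A - x)) - ((B - y) * x - x * (B - y)) := by
      noncomm_ring
    rw [h3, h4, h5, sub_self, sub_self, sub_self, add_zero, sub_zero] at h6
    exact sub_eq_zero.mp h6
  · refine Submodule.span_le.mpr ?_
    rintro _ ⟨x, hx, y, hy, rfl⟩
    refine Submodule.subset_span ⟨P x, hP1 x, P y, hP1 y, ?_⟩
    have h1 := hcommr x hx (P y) (hP1 y)
    have h2 := hcommr y hy (P x) (hP1 x)
    have h3 := central_comm M hw ℚ_[l] _ _ (hh0 x hx) (hh0 y hy)
    have h6 : x * y - y * x - (P x * P y - P y * P x) =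
        ((x - P x) * (y - P y) - (y - P y) * (x - P x)) +
        (P x * (y - P y) - (y - P y) * P x) - (P y * (x - P x) - (x - P x) * P y) := by
      noncomm_ring
    rw [h3, h1, h2, sub_self, sub_self, sub_self, add_zero, sub_zero] at h6
    exact sub_eq_zero.mp h6

end Mot

end HG
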